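import Mathlib

set_option autoImplicit false
set_option linter.unusedSectionVars false

/-!
CM types orthogonal to a space of odd functions with values in `ZMod 3`: Fourier bound.
-/

namespace Pool.Agent.CMN

open Finset

variable {S : Type} [Fintype S] [DecidableEq S]

/-- the CM types -/
def Types (c : S → S) : Finset (Finset S) := univ.filter fun Φ => ∀ s, s ∈ Φ ↔ c s ∉ Φ

lemma mem_Types {c : S → S} {Φ : Finset S} : Φ ∈ Types c ↔ ∀ s, s ∈ Φ ↔ c s ∉ Φ := by
  simp [Types]

lemma inter_mem {c : S → S} {O : Finset S} (Φ : Finset S) : Φ ∩ O ∈ O.powerset :=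
  mem_powerset.2 inter_subset_right

/-- the CM type with given intersection with a half system -/
def ofHalf (c : S → S) (O T : Finset S) : Finset S := T ∪ (O \ T).image c

lemma mem_ofHalf {c : S → S} (hcc : ∀ s, c (c s) = s) {O T : Finset S} (hT : T ⊆ O)
    (hOc : ∀ s, s ∈ O ↔ c s ∉ O) (s : S) :
    s ∈ ofHalf c O T ↔ (s ∈ O ∧ s ∈ T) ∨ (s ∉ O ∧ c s ∉ T) := by
  unfold ofHalf
  rw [mem_union, mem_image]
  constructor
  · rintro (h | ⟨a, ha, rfl⟩)
    · exact Or.inl ⟨hT h, h⟩
    · rw [mem_sdiff] at ha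
      exact Or.inr ⟨(hOc a).1 ha.1, by rw [hcc]; exact ha.2⟩
  · rintro (⟨_, h⟩ | ⟨h1, h2⟩)
    · exact Or.inl h
    · refine Or.inr ⟨c s, ?_, hcc s⟩
      rw [mem_sdiff]
      refine ⟨?_, h2⟩
      by_contra h3
      exact h1 ((hOc s).2 h3)

lemma sum_types {c : S → S} (hcc : ∀ s, c (c s) = s) {O : Finset S}
    (hOc : ∀ s, s ∈ O ↔ c s ∉ O) {R : Type} [CommRing R] (a b : S → R) :
    ∑ Φ ∈ Types c, ∏ s ∈ O, (if s ∈ Φ then a s else b s) = ∏ s ∈ O, (a s + b s) := by
  rw [Finset.prod_add]
  refine Finset.sum_bij' (fun Φ _ => Φ ∩ O) (fun T _ => ofHalf c O T) ?_ ?_ ?_ ?_ ?_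
  · intro Φ _
    exact inter_mem Φ (c := c)
  · intro T hT
    rw [mem_powerset] at hT
    rw [mem_Types]
    intro s
    rw [mem_ofHalf hcc hT hOc, mem_ofHalf hcc hT hOc, hcc]
    have h1 := hOc s
    have h2 : s ∈ T → s ∈ O := fun h => hT h
    have h3 : c s ∈ T → c s ∈ O := fun h => hT h
    tauto
  · intro Φ hΦ
    rw [mem_Types] at hΦ
    ext s
    rw [mem_ofHalf hcc inter_subset_right hOc]
    have h1 := hOc s
    have h2 := hΦ s
    simp only [mem_inter]
    tauto
  · intro T hT
    rw [mem_powerset] at hT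
    ext s
    rw [mem_inter, mem_ofHalf hcc hT hOc]
    have h2 : s ∈ T → s ∈ O := fun h => hT h
    tauto
  · intro Φ hΦ
    rw [← Finset.prod_inter_mul_prod_sdiff O Φ (fun s => if s ∈ Φ then a s else b s)]
    congr 1
    · rw [inter_comm]
      refine Finset.prod_congr rfl fun s hs => ?_
      rw [if_pos (mem_inter.1 hs).1]
    · have : O \ (Φ ∩ O) = O \ Φ := by
        ext s; simp only [mem_sdiff, mem_inter]; tauto
      rw [this]
      refine Finset.prod_congr rfl fun s hs => ?_
      rw [if_neg (mem_sdiff.1 hs).2]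

lemma card_Types {c : S → S} (hcc : ∀ s, c (c s) = s) {O : Finset S}
    (hOc : ∀ s, s ∈ O ↔ c s ∉ O) : (Types c).card = 2 ^ O.card := by
  have h := sum_types hcc hOc (fun _ => (1 : ℤ)) (fun _ => 1)
  simp only [ite_self, prod_const_one, sum_const, nsmul_eq_mul, mul_one] at h
  rw [prod_const] at h
  have e : (1 : ℤ) + 1 = 2 := by norm_num
  rw [e] at h
  exact_mod_cast h

/-- the sum of an odd function over a CM type -/
lemma sum_odd {c : S → S} (hcc : ∀ s, c (c s) = s) {O : Finset S}
    (hOc : ∀ s, s ∈ O ↔ c s ∉ O) {R : Type} [AddCommGroup R] {f : S → R}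
    (hf : ∀ s, f (c s) = - f s) {Φ : Finset S} (hΦ : ∀ s, s ∈ Φ ↔ c s ∉ Φ) :
    ∑ s ∈ Φ, f s = ∑ s ∈ O, (if s ∈ Φ then f s else - f s) := by
  have h1 : ∑ s ∈ Φ, f s = ∑ s ∈ Φ ∩ O, f s + ∑ s ∈ Φ \ O, f s :=
    (Finset.sum_inter_add_sum_sdiff Φ O f).symm
  have h2 : ∑ s ∈ O, (if s ∈ Φ then f s else - f s) = ∑ s ∈ O ∩ Φ, f s + ∑ s ∈ O \ Φ, (- f s) := by
    rw [← Finset.sum_inter_add_sum_sdiff O Φ]
    congr 1
    · refine Finset.sum_congr rfl fun s hs => ?_
      rw [if_pos (mem_inter.1 hs).2]
    · refine Finset.sum_congr rfl fun s hs => ?_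
      rw [if_neg (mem_sdiff.1 hs).2]
  rw [h1, h2, inter_comm]
  congr 1
  refine Finset.sum_bij' (fun s _ => c s) (fun s _ => c s) ?_ ?_ ?_ ?_ ?_
  · intro s hs
    rw [mem_sdiff] at hs ⊢
    refine ⟨?_, (hΦ s).1 hs.1⟩
    by_contra h
    exact hs.2 ((hOc s).2 h)
  · intro s hs
    rw [mem_sdiff] at hs ⊢
    refine ⟨?_, (hOc s).1 hs.1⟩
    by_contra h
    exact hs.2 ((hΦ s).2 h)
  · intro s _; exact hcc s
  · intro s _; exact hcc s
  · intro s _
    rw [hf, neg_neg]

/-- a primitive additive character of `ZMod 3` -/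
noncomputable def χ : AddChar (ZMod 3) ℂ := ZMod.stdAddChar

lemma χ_inj {x : ZMod 3} (h : χ x = 1) : x = 0 := by
  have := ZMod.injective_stdAddChar (N := 3)
  apply this
  show χ x = χ 0
  rw [h, AddChar.map_zero_eq_one]

lemma χ_add_neg (x : ZMod 3) : χ x + χ (-x) = if x = 0 then 2 else -1 := by
  by_cases hx : x = 0
  · subst hx
    rw [if_pos rfl, neg_zero, AddChar.map_zero_eq_one]
    norm_num
  · rw [if_neg hx]
    have h1 : ∑ y : ZMod 3, χ y = 0 := by
      apply AddChar.sum_eq_zero_of_ne_one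
      intro h
      have h2 : χ (1 : ZMod 3) = 1 := by rw [h]; rfl
      have := χ_inj h2
      exact absurd this (by decide)
    have h3 : ∑ y : ZMod 3, χ y = χ 0 + χ x + χ (-x) := by
      have hu : (univ : Finset (ZMod 3)) = {0, x, -x} := by
        revert x; decide
      rw [hu, Finset.sum_insert, Finset.sum_insert, Finset.sum_singleton, add_assoc]
      · revert x; decide
      · revert x; decide
    rw [h3, AddChar.map_zero_eq_one] at h1
    linear_combination h1

lemma χ_sum (O : Finset S) (f : S → ZMod 3) : χ (∑ s ∈ O, f s) = ∏ s ∈ O, χ (f s) := by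
  classical
  induction O using Finset.induction_on with
  | empty => simp [AddChar.map_zero_eq_one]
  | insert a s ha ih =>
    rw [Finset.sum_insert ha, Finset.prod_insert ha, AddChar.map_add_eq_mul, ih]

/-- number of CM types orthogonal to `N` -/
def cnt (c : S → S) (N : Finset (S → ZMod 3)) : Finset (Finset S) :=
  (Types c).filter fun Φ => ∀ f ∈ N, ∑ s ∈ Φ, f s = 0

/-- Fourier inversion. `N` is a finite additive group of odd functions. -/
lemma fourier {c : S → S} (hcc : ∀ s, c (c s) = s) {O : Finset S}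
    (hOc : ∀ s, s ∈ O ↔ c s ∉ O) (N : Finset (S → ZMod 3)) (h0 : (0 : S → ZMod 3) ∈ N)
    (hadd : ∀ f ∈ N, ∀ f' ∈ N, f + f' ∈ N) (hneg : ∀ f ∈ N, - f ∈ N)
    (hodd : ∀ f ∈ N, ∀ s, f (c s) = - f s) :
    (N.card : ℂ) * ((cnt c N).card : ℂ) =
      ∑ f ∈ N, ∏ s ∈ O, (if f s = 0 then (2 : ℂ) else -1) := by
  have key : ∀ Φ ∈ Types c, ∑ f ∈ N, χ (∑ s ∈ Φ, f s) =
      if ∀ f ∈ N, ∑ s ∈ Φ, f s = 0 then (N.card : ℂ) else 0 := by
    intro Φ _
    split_ifs with h
    · rw [Finset.sum_congr rfl (fun f hf => by rw [h f hf, AddChar.map_zero_eq_one])]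
      simp
    · push Not at h
      obtain ⟨f0, hf0, hne⟩ := h
      set T := ∑ f ∈ N, χ (∑ s ∈ Φ, f s) with hT
      have h1 : χ (∑ s ∈ Φ, f0 s) * T = T := by
        rw [hT, Finset.mul_sum]
        refine Finset.sum_bij' (fun f _ => f0 + f) (fun f _ => - f0 + f) ?_ ?_ ?_ ?_ ?_
        · intro f hf; exact hadd _ hf0 _ hf
        · intro f hf; exact hadd _ (hneg _ hf0) _ hf
        · intro f _; simp
        · intro f _; simp
        · intro f _
          rw [← AddChar.map_add_eq_mul]
          congr 1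
          simp only [Pi.add_apply, Finset.sum_add_distrib]
      have h2 : χ (∑ s ∈ Φ, f0 s) ≠ 1 := fun h => hne (χ_inj h)
      have h3 : (χ (∑ s ∈ Φ, f0 s) - 1) * T = 0 := by rw [sub_mul, h1, one_mul, sub_self]
      rcases mul_eq_zero.1 h3 with h4 | h4
      · exact absurd (sub_eq_zero.1 h4) h2
      · exact h4
  have h1 : ∑ Φ ∈ Types c, ∑ f ∈ N, χ (∑ s ∈ Φ, f s) = (N.card : ℂ) * ((cnt c N).card : ℂ) := by
    rw [Finset.sum_congr rfl key, ← Finset.sum_filter]
    simp only [cnt, sum_const, nsmul_eq_mul]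
    ring
  rw [← h1, Finset.sum_comm]
  refine Finset.sum_congr rfl fun f hf => ?_
  have h2 : ∀ Φ ∈ Types c, χ (∑ s ∈ Φ, f s) =
      ∏ s ∈ O, (if s ∈ Φ then χ (f s) else χ (- f s)) := by
    intro Φ hΦ
    rw [sum_odd hcc hOc (hodd f hf) (mem_Types.1 hΦ), χ_sum]
    refine Finset.prod_congr rfl fun s _ => ?_
    split_ifs <;> rfl
  rw [Finset.sum_congr rfl h2, sum_types hcc hOc]
  refine Finset.prod_congr rfl fun s _ => ?_
  exact χ_add_neg (f s)

/-- weight of a function on a half system -/
def wt (O : Finset S) (f : S → ZMod 3) : ℕ := (O.filter fun s => f s ≠ 0).card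

lemma cnt_le {c : S → S} (hcc : ∀ s, c (c s) = s) {O : Finset S}
    (hOc : ∀ s, s ∈ O ↔ c s ∉ O) (N : Finset (S → ZMod 3)) (h0 : (0 : S → ZMod 3) ∈ N)
    (hadd : ∀ f ∈ N, ∀ f' ∈ N, f + f' ∈ N) (hneg : ∀ f ∈ N, - f ∈ N)
    (hodd : ∀ f ∈ N, ∀ s, f (c s) = - f s) :
    (N.card : ℝ) * ((cnt c N).card : ℝ) ≤ 2 ^ O.card * ∑ f ∈ N, (1 / 2 : ℝ) ^ wt O f := by
  have h := fourier hcc hOc N h0 hadd hneg hodd
  have hprod : ∀ f : S → ZMod 3, ‖∏ s ∈ O, (if f s = 0 then (2 : ℂ) else -1)‖ =
      2 ^ O.card * (1 / 2 : ℝ) ^ wt O f := by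
    intro f
    rw [norm_prod]
    have h1 : ∀ s ∈ O, ‖(if f s = 0 then (2 : ℂ) else -1)‖ = if f s = 0 then (2 : ℝ) else 1 := by
      intro s _
      split_ifs <;> simp
    rw [Finset.prod_congr rfl h1, ← Finset.prod_filter_mul_prod_filter_not O (fun s => f s ≠ 0)]
    have h2 : ∏ s ∈ O with f s ≠ 0, (if f s = 0 then (2 : ℝ) else 1) = 1 := by
      apply Finset.prod_eq_one
      intro s hs
      rw [if_neg (mem_filter.1 hs).2]
    have h3 : ∏ s ∈ O with ¬ f s ≠ 0, (if f s = 0 then (2 : ℝ) else 1) =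
        2 ^ (O.filter fun s => ¬ f s ≠ 0).card := by
      rw [Finset.prod_congr rfl (g := fun _ => (2 : ℝ)) (fun s hs => by
        have := (mem_filter.1 hs).2
        rw [not_not] at this
        rw [if_pos this]), prod_const]
    rw [h2, h3, one_mul]
    have h4 : wt O f + (O.filter fun s => ¬ f s ≠ 0).card = O.card :=
      Finset.card_filter_add_card_filter_not _
    rw [← h4, pow_add]
    have : (2 : ℝ) ^ wt O f * (1 / 2 : ℝ) ^ wt O f = 1 := by
      rw [← mul_pow]; norm_num
    calc (2 : ℝ) ^ (O.filter fun s => ¬ f s ≠ 0).card =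
        ((2 : ℝ) ^ wt O f * (1 / 2 : ℝ) ^ wt O f) * 2 ^ (O.filter fun s => ¬ f s ≠ 0).card := by
          rw [this, one_mul]
      _ = _ := by ring
  have h5 : ((N.card : ℝ) * ((cnt c N).card : ℝ)) = ‖(N.card : ℂ) * ((cnt c N).card : ℂ)‖ := by
    rw [norm_mul]; simp
  rw [h5, h]
  refine (norm_sum_le _ _).trans (le_of_eq ?_)
  rw [Finset.mul_sum]
  exact Finset.sum_congr rfl fun f _ => hprod f

section group

variable {G : Type} [Group G] [Fintype G] [MulAction G S]

/-- average over the translates -/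
lemma avg_count (htr : ∀ s t : S, ∃ x : G, x • s = t) {c : S → S} (hcc : ∀ s, c (c s) = s)
    {O : Finset S} (hOc : ∀ s, s ∈ O ↔ c s ∉ O) (f : S → ZMod 3) (hodd : ∀ s, f (c s) = - f s)
    (s : S) :
    (univ.filter fun τ : G => f (τ • s) ≠ 0).card * O.card = Fintype.card G * wt O f := by
  classical
  set a : S → ℕ := fun s => (univ.filter fun τ : G => f (τ • s) ≠ 0).card with ha
  have h1 : ∀ t, a t = a s := by
    intro t
    obtain ⟨x, hx⟩ := htr s t
    simp only [ha]
    refine Finset.card_bij' (fun τ _ => τ * x) (fun τ _ => τ * x⁻¹) ?_ ?_ ?_ ?_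
    · intro τ hτ
      simp only [mem_filter, mem_univ, true_and] at hτ ⊢
      rw [mul_smul, hx]; exact hτ
    · intro τ hτ
      simp only [mem_filter, mem_univ, true_and] at hτ ⊢
      rw [mul_smul, ← hx, inv_smul_smul]; exact hτ
    · intro τ _; simp
    · intro τ _; simp
  have h2 : ∑ t ∈ O, a t = O.card * a s := by
    rw [Finset.sum_congr rfl (fun t _ => h1 t)]
    simp
  -- supports
  have hsupp : ∀ g : S → ZMod 3, (∀ s, g (c s) = - g s) →
      (univ.filter fun s => g s ≠ 0).card = 2 * wt O g := by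
    intro g hg
    have e1 : (univ.filter fun s => g s ≠ 0) = (O.filter fun s => g s ≠ 0) ∪
        (O.filter fun s => g s ≠ 0).image c := by
      ext t
      simp only [mem_filter, mem_univ, true_and, mem_union, mem_image]
      constructor
      · intro ht
        by_cases hO : t ∈ O
        · exact Or.inl ⟨hO, ht⟩
        · refine Or.inr ⟨c t, ⟨?_, ?_⟩, hcc t⟩
          · by_contra h
            exact hO ((hOc t).2 h)
          · rw [hg, neg_ne_zero]; exact ht
      · rintro (⟨_, h⟩ | ⟨u, ⟨_, h⟩, rfl⟩)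
        · exact h
        · rw [hg, neg_ne_zero]; exact h
    rw [e1, Finset.card_union_of_disjoint, Finset.card_image_of_injective, wt, two_mul]
    · intro x y hxy
      rw [← hcc x, hxy, hcc]
    · rw [Finset.disjoint_left]
      intro t ht ht'
      obtain ⟨u, hu, rfl⟩ := mem_image.1 ht'
      exact (hOc u).1 (mem_filter.1 hu).1 (mem_filter.1 ht).1
  have h3 : ∑ t : S, a t = Fintype.card G * (univ.filter fun s => f s ≠ 0).card := by
    have e : ∀ t, a t = ∑ τ : G, if f (τ • t) ≠ 0 then 1 else 0 := by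
      intro t
      simp only [ha, Finset.card_filter]
    simp only [e]
    rw [Finset.sum_comm]
    have e2 : ∀ τ : G, ∑ t : S, (if f (τ • t) ≠ 0 then 1 else 0) =
        (univ.filter fun s => f s ≠ 0).card := by
      intro τ
      rw [Finset.card_filter]
      exact Equiv.sum_comp (MulAction.toPerm τ) (fun s => if f s ≠ 0 then 1 else 0)
    simp only [e2]
    simp
  have h4 : ∑ t : S, a t = Fintype.card S * a s := by
    rw [Finset.sum_congr rfl (fun t _ => h1 t)]
    simp
  have h5 : Fintype.card S = 2 * O.card := by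
    have e : (univ : Finset S) = O ∪ O.image c := by
      ext t
      simp only [mem_univ, mem_union, mem_image, true_iff]
      by_cases hO : t ∈ O
      · exact Or.inl hO
      · exact Or.inr ⟨c t, by by_contra h; exact hO ((hOc t).2 h), hcc t⟩
    rw [← Finset.card_univ, e, Finset.card_union_of_disjoint, Finset.card_image_of_injective,
      two_mul]
    · intro x y hxy
      rw [← hcc x, hxy, hcc]
    · rw [Finset.disjoint_left]
      intro t ht ht'
      obtain ⟨u, hu, rfl⟩ := mem_image.1 ht'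
      exact (hOc u).1 hu ht
  rw [h4, h5, hsupp f hodd] at h3
  show a s * O.card = _
  have h6 : 2 * (a s * O.card) = 2 * (Fintype.card G * wt O f) := by
    calc 2 * (a s * O.card) = 2 * O.card * a s := by ring
      _ = Fintype.card G * (2 * wt O f) := h3
      _ = _ := by ring
  exact Nat.eq_of_mul_eq_mul_left (by norm_num) h6

/-- The Fourier bound: `N` is a `G`-stable group of odd functions which is determined by its
restriction to `I`. -/
theorem jensen (htr : ∀ s t : S, ∃ x : G, x • s = t) {c : S → S} (hcc : ∀ s, c (c s) = s)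
    {O : Finset S} (hOc : ∀ s, s ∈ O ↔ c s ∉ O) (N : Finset (S → ZMod 3))
    (hodd : ∀ f ∈ N, ∀ s, f (c s) = - f s)
    (hG : ∀ f ∈ N, ∀ τ : G, (fun s => f (τ • s)) ∈ N)
    (I : Finset S) (hI : ∀ f ∈ N, ∀ f' ∈ N, (∀ s ∈ I, f s = f' s) → f = f')
    (L : ℕ) (hL : L * I.card ≤ O.card) :
    ∑ f ∈ N, (1 / 2 : ℝ) ^ wt O f ≤ (1 + 2 * (1 / 2 : ℝ) ^ L) ^ I.card := by
  classical
  set z : ℝ := (1 / 2 : ℝ) ^ L with hz
  have hz0 : 0 < z := by positivity
  have hGpos : (0 : ℝ) < Fintype.card G := by exact_mod_cast Fintype.card_pos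
  -- convexity
  have h1 : ∀ f ∈ N, (1 / 2 : ℝ) ^ wt O f ≤
      (∑ τ : G, z ^ (I.filter fun s => f (τ • s) ≠ 0).card) / Fintype.card G := by
    intro f hf
    set w := wt O f with hw
    have hlog : 0 < Real.log 2 := Real.log_pos (by norm_num)
    have e1 : ∀ m : ℕ, (1 / 2 : ℝ) ^ m = Real.exp (-(Real.log 2 * m)) := by
      intro m
      rw [← neg_mul, mul_comm, Real.exp_nat_mul, Real.exp_neg, Real.exp_log (by norm_num)]
      norm_num
    have e2 : ∀ τ : G, (1 / 2 : ℝ) ^ w * (1 - Real.log 2 *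
        ((L * (I.filter fun s => f (τ • s) ≠ 0).card : ℕ) - (w : ℝ))) ≤
        z ^ (I.filter fun s => f (τ • s) ≠ 0).card := by
      intro τ
      set m := (I.filter fun s => f (τ • s) ≠ 0).card
      rw [hz, ← pow_mul, e1 (L * m), e1 w]
      have h2 : Real.exp (-(Real.log 2 * ((L * m : ℕ) : ℝ))) =
          Real.exp (-(Real.log 2 * w)) * Real.exp (-(Real.log 2 * (((L * m : ℕ) : ℝ) - w))) := by
        rw [← Real.exp_add]; congr 1; ring
      rw [h2]
      apply mul_le_mul_of_nonneg_left _ (Real.exp_pos _).le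
      have := Real.add_one_le_exp (-(Real.log 2 * (((L * m : ℕ) : ℝ) - w)))
      linarith
    rw [le_div_iff₀ hGpos]
    refine le_trans ?_ (Finset.sum_le_sum fun τ _ => e2 τ)
    rw [← Finset.mul_sum]
    apply mul_le_mul_of_nonneg_left _ (by positivity)
    rw [Finset.sum_sub_distrib, ← Finset.mul_sum, Finset.sum_sub_distrib]
    simp only [sum_const, card_univ, nsmul_eq_mul, mul_one]
    -- the average
    have e3 : ∑ τ : G, (((L * (I.filter fun s => f (τ • s) ≠ 0).card : ℕ) : ℕ) : ℝ) ≤
        Fintype.card G * (w : ℝ) := by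
      have e4 : ∑ τ : G, (I.filter fun s => f (τ • s) ≠ 0).card * O.card =
          I.card * (Fintype.card G * w) := by
        have e5 : ∀ τ : G, (I.filter fun s => f (τ • s) ≠ 0).card =
            ∑ s ∈ I, if f (τ • s) ≠ 0 then 1 else 0 := fun τ => by rw [Finset.card_filter]
        simp only [e5]
        rw [← Finset.sum_mul, Finset.sum_comm, Finset.sum_mul]
        have e6 : ∀ s ∈ I, (∑ τ : G, if f (τ • s) ≠ 0 then 1 else 0) * O.card =
            Fintype.card G * w := by
          intro s _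
          rw [← Finset.card_filter]
          exact avg_count htr hcc hOc f (hodd f hf) s
        rw [Finset.sum_congr rfl e6]
        simp
      have hOpos : 0 < O.card ∨ O.card = 0 := by omega
      rcases hOpos with hO | hO
      · have e7 : (∑ τ : G, (L * (I.filter fun s => f (τ • s) ≠ 0).card)) * O.card ≤
            (Fintype.card G * w) * O.card := by
          calc (∑ τ : G, (L * (I.filter fun s => f (τ • s) ≠ 0).card)) * O.card
              = L * ∑ τ : G, (I.filter fun s => f (τ • s) ≠ 0).card * O.card := by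
                rw [Finset.sum_mul, Finset.mul_sum]
                exact Finset.sum_congr rfl fun τ _ => by ring
            _ = (L * I.card) * (Fintype.card G * w) := by rw [e4]; ring
            _ ≤ O.card * (Fintype.card G * w) := Nat.mul_le_mul_right _ hL
            _ = _ := by ring
        have e8 := Nat.le_of_mul_le_mul_right e7 hO
        exact_mod_cast e8
      · rw [hO, Nat.le_zero] at hL
        have : ∀ τ : G, L * (I.filter fun s => f (τ • s) ≠ 0).card = 0 := by
          intro τ
          rcases Nat.mul_eq_zero.1 hL with h | h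
          · rw [h, Nat.zero_mul]
          · rw [Finset.card_eq_zero.1 h]; simp
        simp only [this]
        simp
        positivity
    nlinarith
  -- swap and reindex
  calc ∑ f ∈ N, (1 / 2 : ℝ) ^ wt O f
      ≤ ∑ f ∈ N, (∑ τ : G, z ^ (I.filter fun s => f (τ • s) ≠ 0).card) / Fintype.card G :=
        Finset.sum_le_sum h1
    _ = (∑ τ : G, ∑ f ∈ N, z ^ (I.filter fun s => f (τ • s) ≠ 0).card) / Fintype.card G := by
        rw [← Finset.sum_div, Finset.sum_comm]
    _ = (∑ τ : G, ∑ f ∈ N, z ^ (I.filter fun s => f s ≠ 0).card) / Fintype.card G := by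
        congr 1
        refine Finset.sum_congr rfl fun τ _ => ?_
        refine Finset.sum_bij' (fun f _ => fun s => f (τ • s)) (fun f _ => fun s => f (τ⁻¹ • s))
          ?_ ?_ ?_ ?_ ?_
        · intro f hf; exact hG f hf τ
        · intro f hf; exact hG f hf τ⁻¹
        · intro f _; funext s; simp
        · intro f _; funext s; simp
        · intro f _; rfl
    _ = ∑ f ∈ N, z ^ (I.filter fun s => f s ≠ 0).card := by
        rw [Finset.sum_const, card_univ, nsmul_eq_mul, mul_div_assoc, mul_comm,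
          div_mul_cancel₀ _ hGpos.ne']
    _ ≤ ∑ h : I → ZMod 3, ∏ s : I, (if h s = 0 then (1 : ℝ) else z) := by
        have e1 : ∀ f : S → ZMod 3, z ^ (I.filter fun s => f s ≠ 0).card =
            ∏ s : I, (if f s = 0 then (1 : ℝ) else z) := by
          intro f
          rw [Finset.prod_coe_sort I (fun s => if f s = 0 then (1 : ℝ) else z),
            ← Finset.prod_filter_mul_prod_filter_not I (fun s => f s ≠ 0)]
          rw [Finset.prod_congr rfl (g := fun _ => z) (fun s hs => by
            rw [if_neg (mem_filter.1 hs).2]), prod_const]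
          rw [Finset.prod_congr rfl (s₁ := I.filter fun s => ¬ f s ≠ 0) (g := fun _ => (1 : ℝ))
            (fun s hs => by
              have := (mem_filter.1 hs).2
              rw [not_not] at this
              rw [if_pos this])]
          simp
        simp only [e1]
        rw [← Finset.sum_image (s := N) (g := fun f => fun s : I => f s)
          (f := fun h : I → ZMod 3 => ∏ s : I, (if h s = 0 then (1 : ℝ) else z))]
        · apply Finset.sum_le_sum_of_subset_of_nonneg (Finset.subset_univ _)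
          intro h _ _
          apply Finset.prod_nonneg
          intro s _
          split_ifs
          · norm_num
          · exact hz0.le
        · intro f hf f' hf' hff
          exact hI f hf f' hf' fun s hs => congrFun hff ⟨s, hs⟩
    _ = (1 + 2 * z) ^ I.card := by
        have e1 := Finset.prod_univ_sum (fun _ : I => (univ : Finset (ZMod 3)))
          (fun _ x => if x = 0 then (1 : ℝ) else z)
        rw [Fintype.piFinset_univ] at e1
        rw [← e1]
        have e2 : ∑ x : ZMod 3, (if x = 0 then (1 : ℝ) else z) = 1 + 2 * z := by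
          have hu : (univ : Finset (ZMod 3)) = {0, 1, 2} := by decide
          rw [hu, Finset.sum_insert (by decide), Finset.sum_insert (by decide),
            Finset.sum_singleton, if_pos rfl, if_neg (by decide), if_neg (by decide)]
          ring
        rw [e2, prod_const, card_univ, Fintype.card_coe]
end group

end Pool.Agent.CMN
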