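import Pool.Agent.Lib_helper7.CMN.Main
import Pool.Agent.Lib_helper86.CMT.LargeK

set_option autoImplicit false
set_option linter.unusedSectionVars false

/-!
Degenerate CM types of a CM field all of whose proper subfields are totally real.
-/

open NumberField Pool.Agent.CMT

namespace Pool.Agent.CMN

variable {K : Type} [Field K] [NumberField K] [IsCMField K]
variable {L : Type} [Field L] [NumberField L] [Algebra K L] [IsGalois ℚ L]

/-- complex conjugation in the Galois group -/
theorem exists_z : ∃ z : Gal(L/ℚ), ∀ s : K →ₐ[ℚ] L, (z : L →ₐ[ℚ] L).comp s = cj s := by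
  classical
  obtain ⟨φ₀⟩ : Nonempty (L →+* ℂ) := inferInstance
  have hinj : Function.Injective (fun σ : Gal(L/ℚ) => φ₀.comp (σ : L →+* L)) := by
    intro σ τ h
    ext x
    have := congrArg (fun f : L →+* ℂ => f x) h
    exact φ₀.injective this
  have hcard : Fintype.card Gal(L/ℚ) = Fintype.card (L →+* ℂ) := by
    rw [NumberField.Embeddings.card, ← Nat.card_eq_fintype_card]
    exact IsGalois.card_aut_eq_finrank ℚ L
  have hbij := (Fintype.bijective_iff_injective_and_card _).2 ⟨hinj, hcard⟩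
  obtain ⟨z, hz⟩ := hbij.2 ((starRingEnd ℂ).comp φ₀)
  refine ⟨z, fun s => ?_⟩
  ext x
  apply φ₀.injective
  rw [emb_cj]
  exact congrArg (fun f : L →+* ℂ => f (s x)) hz

lemma mem_stabilizer (s : K →ₐ[ℚ] L) (g : Gal(L/ℚ)) :
    letI := galAct K L
    g ∈ MulAction.stabilizer Gal(L/ℚ) s ↔ g ∈ s.fieldRange.fixingSubgroup := by
  let _ := galAct K L
  rw [MulAction.mem_stabilizer_iff, IntermediateField.mem_fixingSubgroup_iff]
  constructor
  · rintro h _ ⟨x, rfl⟩
    exact congrArg (fun f : K →ₐ[ℚ] L => f x) h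
  · intro h
    ext x
    exact h _ ⟨x, rfl⟩

lemma stabilizer_eq (s : K →ₐ[ℚ] L) :
    letI := galAct K L
    MulAction.stabilizer Gal(L/ℚ) s = s.fieldRange.fixingSubgroup := by
  let _ := galAct K L
  ext g
  exact mem_stabilizer s g

theorem mem_of_lt (hreal : ∀ F : IntermediateField ℚ K, F ≠ ⊤ → IsTotallyReal F) {z : Gal(L/ℚ)}
    (hz : ∀ s : K →ₐ[ℚ] L, (z : L →ₐ[ℚ] L).comp s = cj s) (s : K →ₐ[ℚ] L)
    (J : Subgroup Gal(L/ℚ)) :
    letI := galAct K L
    MulAction.stabilizer Gal(L/ℚ) s < J → z ∈ J := by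
  let _ := galAct K L
  intro hJ
  rw [stabilizer_eq] at hJ
  set F : IntermediateField ℚ K := (IntermediateField.fixedField J).comap s with hF
  have hFne : F ≠ ⊤ := by
    intro htop
    have h1 : s.fieldRange ≤ IntermediateField.fixedField J := by
      rintro _ ⟨x, rfl⟩
      have : x ∈ F := by rw [htop]; exact IntermediateField.mem_top
      exact this
    exact absurd ((IntermediateField.le_iff_le _ _).1 h1) hJ.not_ge
  have hreal' := hreal F hFne
  have hsub : IsTotallyReal F.toSubfield := hreal'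
  have hfix : ∀ x ∈ F, conjK K x = x := by
    intro x hx
    rw [conjK_apply, IsCMField.complexConj_eq_self_iff]
    exact IsTotallyReal.le_maximalRealSubfield F.toSubfield hx
  rw [← IntermediateField.fixingSubgroup_fixedField J,
    IntermediateField.mem_fixingSubgroup_iff]
  intro y hy
  have hle : IntermediateField.fixedField J ≤ s.fieldRange := by
    have := IntermediateField.fixedField_le hJ.le
    rwa [IsGalois.fixedField_fixingSubgroup] at this
  obtain ⟨x, rfl⟩ := hle hy
  have hx : x ∈ F := hy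
  have h1 := congrArg (fun f : K →ₐ[ℚ] L => f x) (hz s)
  have h2 : cj s x = s x := by rw [cj_apply, hfix x hx]
  exact h1.trans h2

theorem card_same (s : K →ₐ[ℚ] L) :
    letI := galAct K L
    Nat.card {s' : K →ₐ[ℚ] L // MulAction.stabilizer Gal(L/ℚ) s' = MulAction.stabilizer Gal(L/ℚ) s}
      ≤ Nat.card (K ≃ₐ[ℚ] K) := by
  let _ := galAct K L
  have key : ∀ s' : {s' : K →ₐ[ℚ] L // MulAction.stabilizer Gal(L/ℚ) s' =
      MulAction.stabilizer Gal(L/ℚ) s}, ∃ α : K ≃ₐ[ℚ] K, ∀ x, s'.1 x = s (α x) := by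
    rintro ⟨s', h⟩
    rw [stabilizer_eq, stabilizer_eq] at h
    have h1 : s'.fieldRange = s.fieldRange := by
      rw [← IsGalois.fixedField_fixingSubgroup s'.fieldRange, h,
        IsGalois.fixedField_fixingSubgroup]
    have h2 : ∀ x : K, ∃ y : K, s y = s' x := by
      intro x
      have : s' x ∈ s.fieldRange := by rw [← h1]; exact ⟨x, rfl⟩
      exact this
    choose α hα using h2
    have e1 : α 1 = 1 := s.injective (by
      show s (α 1) = s 1
      rw [hα, map_one, map_one])
    have em : ∀ x y, α (x * y) = α x * α y := fun x y => s.injective (by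
      show s (α (x * y)) = s (α x * α y)
      rw [hα, map_mul, map_mul, hα, hα])
    have e0 : α 0 = 0 := s.injective (by
      show s (α 0) = s 0
      rw [hα, map_zero, map_zero])
    have ea : ∀ x y, α (x + y) = α x + α y := fun x y => s.injective (by
      show s (α (x + y)) = s (α x + α y)
      rw [hα, map_add, map_add, hα, hα])
    have ec : ∀ r : ℚ, α (algebraMap ℚ K r) = algebraMap ℚ K r := fun r => s.injective (by
      show s (α (algebraMap ℚ K r)) = s (algebraMap ℚ K r)
      rw [hα, AlgHom.commutes, AlgHom.commutes])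
    let α' : K →ₐ[ℚ] K :=
      { toFun := α
        map_one' := e1
        map_mul' := em
        map_zero' := e0
        map_add' := ea
        commutes' := ec }
    exact ⟨AlgEquiv.ofBijective α' (Algebra.IsAlgebraic.algHom_bijective α'), fun x =>
      (hα x).symm⟩
  choose f hf using key
  refine Nat.card_le_card_of_injective f ?_
  intro a b hab
  apply Subtype.ext
  ext x
  rw [hf, hf, hab]

theorem two_le_card_aut : 2 ≤ Nat.card (K ≃ₐ[ℚ] K) := by
  have : Finite (K ≃ₐ[ℚ] K) := inferInstance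
  have hnt : Nontrivial (K ≃ₐ[ℚ] K) := by
    refine ⟨(IsCMField.complexConj K).restrictScalars ℚ, 1, ?_⟩
    intro h
    apply IsCMField.complexConj_ne_one K
    ext x
    exact congrArg (fun f : K ≃ₐ[ℚ] K => f x) h
  exact Finite.one_lt_card_iff_nontrivial.2 hnt

/-- the count -/
theorem card_degenerate_le (hreal : ∀ F : IntermediateField ℚ K, F ≠ ⊤ → IsTotallyReal F)
    (g : ℕ) (hg : 1024 ≤ g) (hK : Module.finrank ℚ K = 2 * g) :
    (Nat.card {Φ : Finset (K →ₐ[ℚ] L) // IsCMType Φ ∧ ¬ Nondegenerate Φ} : ℝ)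
      ≤ Nat.card (K ≃ₐ[ℚ] K) / (3 * Real.log (2 * g)) * 2 ^ g := by
  classical
  let _ := galAct K L
  obtain ⟨z, hz⟩ := exists_z (K := K) (L := L)
  obtain ⟨O, hOc⟩ := Large.exists_half (S := K →ₐ[ℚ] L) cj cj_cj cj_ne
  have hcardO := card_half (S := K →ₐ[ℚ] L) cj cj_cj O hOc
  have hOcard : O.card = g := by
    have h1 := hcardO
    rw [card_emb, hK] at h1
    omega
  let B : Finset (Finset (K →ₐ[ℚ] L)) :=
    Finset.univ.filter fun Φ => IsCMType Φ ∧ ¬ Nondegenerate Φ
  have hBcard : Nat.card {Φ : Finset (K →ₐ[ℚ] L) // IsCMType Φ ∧ ¬ Nondegenerate Φ} = B.card := by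
    rw [Nat.card_eq_fintype_card, Fintype.card_subtype]
  have hB : ∀ Φ ∈ B, Φ ∈ Types cj ∧ IsBad Gal(L/ℚ) cj Φ := by
    intro Φ hΦ
    obtain ⟨h1, h2⟩ := (Finset.mem_filter.1 hΦ).2
    refine ⟨mem_Types.2 h1, ?_⟩
    have : Fact (Nat.Prime 3) := ⟨Nat.prime_three⟩
    exact mod_of_degenerate Φ h1 3 h2
  rw [hBcard]
  have hA : ∀ s : K →ₐ[ℚ] L, Nat.card {s' : K →ₐ[ℚ] L // MulAction.stabilizer Gal(L/ℚ) s' =
      MulAction.stabilizer Gal(L/ℚ) s} ≤ Nat.card (K ≃ₐ[ℚ] K) := fun s => card_same s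
  by_cases hne : ∃ s s' : K →ₐ[ℚ] L, MulAction.stabilizer Gal(L/ℚ) s ≠
      MulAction.stabilizer Gal(L/ℚ) s'
  · have := main_count (G := Gal(L/ℚ)) (S := K →ₐ[ℚ] L) (c := cj) (fun g s => rfl)
      (fun s t => gal_trans s t) cj_cj (z := z) hz (fun s J => mem_of_lt hreal hz s J) hOc
      (by rw [hOcard]; exact hg) (Nat.card (K ≃ₐ[ℚ] K)) hA hne two_le_card_aut hcardO B hB
    rwa [hOcard] at this
  · push Not at hne
    have s0 : K →ₐ[ℚ] L := IsScalarTower.toAlgHom ℚ K L
    have h1 : 2 * g ≤ Nat.card (K ≃ₐ[ℚ] K) := by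
      refine le_trans ?_ (hA s0)
      rw [← hK, ← card_emb (K := K) (L := L), ← Nat.card_eq_fintype_card]
      exact Nat.card_le_card_of_injective (fun s => ⟨s, hne s s0⟩) (fun a b hab =>
        congrArg Subtype.val hab)
    have h2 : (B.card : ℝ) ≤ 2 ^ g := by
      have h3 : B.card ≤ (Types (S := K →ₐ[ℚ] L) cj).card :=
        Finset.card_le_card fun Φ hΦ => (hB Φ hΦ).1
      rw [card_Types cj_cj hOc, hOcard] at h3
      exact_mod_cast h3
    obtain ⟨h12, h4g, h2g⟩ := L_facts hg rfl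
    set l := Nat.log 2 g + 2 with hl
    have hsq := five_sq l h12
    have hgR : (1024 : ℝ) ≤ g := by exact_mod_cast hg
    have hlog : Real.log (2 * g) ≤ l := by
      have e1 : Real.log (2 * g) ≤ l * Real.log 2 := by
        rw [← Real.log_pow]
        apply Real.log_le_log (by linarith)
        have : ((2 * g : ℕ) : ℝ) ≤ ((2 ^ l : ℕ) : ℝ) := by exact_mod_cast h2g.le
        push_cast at this
        exact this
      have e2 := Real.log_two_lt_d9
      have e3 : (0 : ℝ) ≤ l := Nat.cast_nonneg _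
      nlinarith
    have hpos : 0 < Real.log (2 * g) := Real.log_pos (by linarith)
    have h5 : 3 * l ≤ 2 * g := by nlinarith
    have h5R : 3 * (l : ℝ) ≤ 2 * g := by exact_mod_cast h5
    have h1R : 2 * (g : ℝ) ≤ Nat.card (K ≃ₐ[ℚ] K) := by exact_mod_cast h1
    have h6 : 1 ≤ (Nat.card (K ≃ₐ[ℚ] K) : ℝ) / (3 * Real.log (2 * g)) := by
      rw [le_div_iff₀ (by positivity)]
      linarith
    calc (B.card : ℝ) ≤ 1 * 2 ^ g := by rw [one_mul]; exact h2
      _ ≤ _ := mul_le_mul_of_nonneg_right h6 (by positivity)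

end Pool.Agent.CMN
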