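import Pool.Agent.Lib_helper7.CMN.Rep
import Pool.Agent.Lib_helper7.CMN.Fourier

set_option autoImplicit false
set_option linter.unusedSectionVars false

/-!
CM types orthogonal to a simple module of odd functions.
-/

namespace Pool.Agent.CMN

open Finset

variable {G S : Type} [Group G] [Fintype G] [MulAction G S] [Fintype S] [DecidableEq S]
variable {c : S → S} {hcG : ∀ (g : G) (s : S), c (g • s) = g • c s}

/-- the functions in a submodule -/
noncomputable def fs (N : Submodule (RR G) (MM (G := G) c hcG)) : Finset (S → ZMod 3) :=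
  (Set.toFinite (toFn c hcG '' (N : Set (MM (G := G) c hcG)))).toFinset

lemma mem_fs {N : Submodule (RR G) (MM (G := G) c hcG)} {f : S → ZMod 3} :
    f ∈ fs N ↔ ∃ x ∈ N, toFn c hcG x = f := by
  simp [fs]

lemma card_fs (N : Submodule (RR G) (MM (G := G) c hcG)) : (fs N).card = Nat.card N := by
  rw [fs, ← Set.ncard_eq_toFinset_card, Set.ncard_image_of_injective _ (toFn_inj c hcG)]
  rfl

lemma card_pow (N : Submodule (RR G) (MM (G := G) c hcG)) :
    Nat.card N = 3 ^ Module.finrank (ZMod 3) N := by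
  rw [Module.natCard_eq_pow_finrank (K := ZMod 3)]
  simp

lemma info (N : Submodule (RR G) (MM (G := G) c hcG)) :
    ∃ I : Finset S, I.card = Module.finrank (ZMod 3) N ∧
      ∀ f ∈ fs N, ∀ f' ∈ fs N, (∀ s ∈ I, f s = f' s) → f = f' := by
  let N' : Submodule (ZMod 3) (S → ZMod 3) := (N.restrictScalars (ZMod 3)).map (toFn c hcG)
  obtain ⟨I, hI, h⟩ := exists_info N'
  refine ⟨I, ?_, ?_⟩
  · rw [hI]
    have e := Submodule.equivMapOfInjective (toFn c hcG) (toFn_inj c hcG)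
      (N.restrictScalars (ZMod 3))
    exact e.finrank_eq.symm
  · intro f hf f' hf' hs
    refine h f ?_ f' ?_ hs
    · obtain ⟨x, hx, rfl⟩ := mem_fs.1 hf
      exact ⟨x, hx, rfl⟩
    · obtain ⟨x, hx, rfl⟩ := mem_fs.1 hf'
      exact ⟨x, hx, rfl⟩

theorem cnt_bound (htr : ∀ s t : S, ∃ x : G, x • s = t) (hcc : ∀ s, c (c s) = s)
    {O : Finset S} (hOc : ∀ s, s ∈ O ↔ c s ∉ O) (N : Submodule (RR G) (MM (G := G) c hcG))
    (L : ℕ) (hL : L * Module.finrank (ZMod 3) N ≤ O.card) :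
    ((cnt c (fs N)).card : ℝ) ≤
      2 ^ O.card * ((1 + 2 * (1 / 2 : ℝ) ^ L) / 3) ^ Module.finrank (ZMod 3) N := by
  obtain ⟨I, hI, hinfo⟩ := info N
  have hodd : ∀ f ∈ fs N, ∀ s, f (c s) = - f s := by
    intro f hf s
    obtain ⟨x, _, rfl⟩ := mem_fs.1 hf
    exact toFn_odd c hcG x s
  have h1 := cnt_le hcc hOc (fs N) (mem_fs.2 ⟨0, N.zero_mem, map_zero _⟩) (by
      intro f hf f' hf'
      obtain ⟨x, hx, rfl⟩ := mem_fs.1 hf
      obtain ⟨x', hx', rfl⟩ := mem_fs.1 hf'
      exact mem_fs.2 ⟨x + x', N.add_mem hx hx', map_add _ _ _⟩) (by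
      intro f hf
      obtain ⟨x, hx, rfl⟩ := mem_fs.1 hf
      exact mem_fs.2 ⟨- x, N.neg_mem hx, map_neg _ _⟩) hodd
  have h2 := jensen (G := G) htr hcc hOc (fs N) hodd (by
      intro f hf τ
      obtain ⟨x, hx, rfl⟩ := mem_fs.1 hf
      refine mem_fs.2 ⟨MonoidAlgebra.of (ZMod 3) G τ⁻¹ • x, N.smul_mem _ hx, ?_⟩
      funext s
      rw [toFn_smul, inv_inv]) I hinfo L (by rw [hI]; exact hL)
  rw [card_fs, card_pow] at h1
  rw [hI] at h2
  have h3 : (0 : ℝ) < 3 ^ Module.finrank (ZMod 3) N := by positivity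
  rw [div_pow, mul_div_assoc', le_div_iff₀ h3, mul_comm]
  push_cast at h1
  refine h1.trans ?_
  gcongr

lemma card_MM_le {O : Finset S} (hcc : ∀ s, c (c s) = s) (hOc : ∀ s, s ∈ O ↔ c s ∉ O) :
    Nat.card (MM (G := G) c hcG) ≤ 3 ^ O.card := by
  have h : Nat.card (O → ZMod 3) = 3 ^ O.card := by
    rw [Nat.card_eq_fintype_card, Fintype.card_fun, ZMod.card, Fintype.card_coe]
  rw [← h]
  refine Nat.card_le_card_of_injective (fun x s => toFn c hcG x s.1) ?_
  intro x y hxy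
  apply toFn_inj c hcG
  have key : ∀ s ∈ O, toFn c hcG x s = toFn c hcG y s := fun s hs => congrFun hxy ⟨s, hs⟩
  funext s
  by_cases hs : s ∈ O
  · exact key s hs
  · have h1 : c s ∈ O := by
      by_contra h'
      exact hs ((hOc s).2 h')
    have h2 := key _ h1
    rw [toFn_odd, toFn_odd] at h2
    exact neg_injective h2

/-- degenerate modulo 3 -/
def IsBad (G : Type) [Group G] [MulAction G S] (c : S → S) (Φ : Finset S) : Prop :=
  ∃ f : S → ZMod 3, f ≠ 0 ∧ (∀ s, f (c s) = - f s) ∧ ∀ τ : G, ∑ s ∈ Φ, f (τ • s) = 0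

theorem bad_simple (hcG : ∀ (g : G) (s : S), c (g • s) = g • c s) {Φ : Finset S}
    (hΦ : Φ ∈ Types c) (hbad : IsBad G c Φ) :
    ∃ N : Submodule (RR G) (MM (G := G) c hcG), IsSimpleModule (RR G) N ∧ Φ ∈ cnt c (fs N) := by
  obtain ⟨f, hf0, hodd, hf⟩ := hbad
  let p : Submodule (ZMod 3) (MM (G := G) c hcG) :=
    { carrier := {x | ∀ τ : G, ∑ s ∈ Φ, toFn c hcG x (τ • s) = 0}
      add_mem' := by
        intro x y hx hy τ
        simp only [map_add, Pi.add_apply, Finset.sum_add_distrib, hx τ, hy τ, add_zero]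
      zero_mem' := by
        intro τ
        simp
      smul_mem' := by
        intro a x hx τ
        simp only [map_smul, Pi.smul_apply, smul_eq_mul, ← Finset.mul_sum, hx τ, mul_zero] }
  have hp : ∀ g : G, ∀ x ∈ p, MonoidAlgebra.of (ZMod 3) G g • x ∈ p := by
    intro g x hx τ
    have := hx (g⁻¹ * τ)
    rw [← this]
    refine Finset.sum_congr rfl fun s _ => ?_
    rw [toFn_smul, mul_smul]
  let X : Submodule (RR G) (MM (G := G) c hcG) := mkSub c hcG p hp
  obtain ⟨x, hx⟩ := exists_toFn (G := G) c hcG (f := f) hodd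
  have hxX : x ∈ X := by
    intro τ
    rw [hx]
    exact hf τ
  have hX : X ≠ ⊥ := by
    intro h
    rw [h, Submodule.mem_bot] at hxX
    apply hf0
    rw [← hx, hxX, map_zero]
  have : Finite (Submodule (RR G) (MM (G := G) c hcG)) := inferInstance
  rcases eq_bot_or_exists_atom_le X with h | ⟨N, hN, hle⟩
  · exact absurd h hX
  · refine ⟨N, isSimpleModule_iff_isAtom.2 hN, ?_⟩
    rw [cnt, mem_filter]
    refine ⟨hΦ, ?_⟩
    intro f' hf'
    obtain ⟨y, hy, rfl⟩ := mem_fs.1 hf'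
    have := hle hy (1 : G)
    simpa using this

end Pool.Agent.CMN
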