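import Mathlib

set_option autoImplicit false
set_option linter.unusedSectionVars false

/-!
Numerical estimates.
-/

namespace Pool.Agent.CMN

lemma five_sq (L : ℕ) (hL : 12 ≤ L) : 20 * L ^ 2 ≤ 2 ^ L := by
  induction L, hL using Nat.le_induction with
  | base => norm_num
  | succ n hn ih =>
    rw [pow_succ 2 n]
    nlinarith

lemma L_facts {g L : ℕ} (hg : 1024 ≤ g) (hL : L = Nat.log 2 g + 2) :
    12 ≤ L ∧ 2 ^ L ≤ 4 * g ∧ 2 * g < 2 ^ L := by
  have h1 : 10 ≤ Nat.log 2 g := by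
    apply Nat.le_log_of_pow_le (by norm_num)
    norm_num
    exact hg
  refine ⟨by omega, ?_, ?_⟩
  · have := Nat.pow_log_le_self 2 (x := g) (by omega)
    rw [hL, pow_add]
    omega
  · have := Nat.lt_pow_succ_log_self (b := 2) (by norm_num) g
    rw [hL, show Nat.log 2 g + 2 = (Nat.log 2 g).succ + 1 from rfl, pow_succ]
    omega

lemma log_three : Real.log 3 ≤ 8 / 5 * Real.log 2 := by
  have h1 : Real.log (3 ^ 5) ≤ Real.log (2 ^ 8) := Real.log_le_log (by norm_num) (by norm_num)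
  rw [Real.log_pow, Real.log_pow] at h1
  push_cast at h1
  linarith

lemma final_num {g A L : ℕ} (hg : 1024 ≤ g) (hL : L = Nat.log 2 g + 2) (hA : 2 ≤ A) :
    (1 / 2 : ℝ) ^ L + L * (1 / 2 * (1 / 2 : ℝ) ^ L) +
      (g * Real.log 3 / Real.log (2 * g)) * (A / (4 * g) * Real.exp (1 / L)) ≤
      A / (3 * Real.log (2 * g)) := by
  obtain ⟨h12, h4g, h2g⟩ := L_facts hg hL
  have hsq := five_sq L h12
  have hgR : (1024 : ℝ) ≤ g := by exact_mod_cast hg
  have hLR : (12 : ℝ) ≤ L := by exact_mod_cast h12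
  have hAR : (2 : ℝ) ≤ A := by exact_mod_cast hA
  have hsqR : 20 * (L : ℝ) ^ 2 ≤ 2 ^ L := by exact_mod_cast hsq
  have hl2 := Real.log_two_lt_d9
  have hl2' := Real.log_two_gt_d9
  have hlog3 := log_three
  set l := Real.log (2 * g) with hl
  have hlpos : 0 < l := Real.log_pos (by linarith)
  have hlL : l ≤ L * Real.log 2 := by
    rw [hl, ← Real.log_pow]
    apply Real.log_le_log (by linarith)
    have : ((2 * g : ℕ) : ℝ) ≤ ((2 ^ L : ℕ) : ℝ) := by exact_mod_cast h2g.le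
    push_cast at this
    exact this
  have hexp : Real.exp (1 / L) ≤ 12 / 11 := by
    have h1 : (1 : ℝ) / L ≤ 1 / 12 := one_div_le_one_div_of_le (by norm_num) hLR
    have h2 : Real.exp (1 / L) ≤ Real.exp (1 / 12) := Real.exp_le_exp.2 h1
    have h3 : (11 / 12 : ℝ) ≤ Real.exp (- (1 / 12)) := by
      have := Real.add_one_le_exp (- (1 / 12 : ℝ))
      linarith
    rw [Real.exp_neg] at h3
    have h4 : 0 < Real.exp (1 / 12 : ℝ) := Real.exp_pos _
    have h5 : (11 / 12 : ℝ) * Real.exp (1 / 12) ≤ 1 := by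
      have := mul_le_mul_of_nonneg_right h3 h4.le
      rwa [inv_mul_cancel₀ h4.ne'] at this
    linarith
  have hpow : (1 / 2 : ℝ) ^ L * 2 ^ L = 1 := by
    rw [← mul_pow]; norm_num
  have hppos : 0 < (1 / 2 : ℝ) ^ L := by positivity
  have hsmall : (1 / 2 : ℝ) ^ L * (L : ℝ) ^ 2 ≤ 1 / 20 := by
    have := mul_le_mul_of_nonneg_left hsqR hppos.le
    rw [hpow] at this
    linarith
  have h1 : ((1 / 2 : ℝ) ^ L + L * (1 / 2 * (1 / 2 : ℝ) ^ L)) * l ≤ 1 / 25 := by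
    have e1 : ((1 / 2 : ℝ) ^ L + L * (1 / 2 * (1 / 2 : ℝ) ^ L)) =
        (1 / 2 : ℝ) ^ L * (1 + L / 2) := by ring
    rw [e1]
    have e2 : (1 + (L : ℝ) / 2) ≤ L := by linarith
    calc (1 / 2 : ℝ) ^ L * (1 + L / 2) * l ≤ (1 / 2 : ℝ) ^ L * L * (L * Real.log 2) := by
          apply mul_le_mul _ hlL hlpos.le (by positivity)
          exact mul_le_mul_of_nonneg_left e2 hppos.le
      _ = ((1 / 2 : ℝ) ^ L * (L : ℝ) ^ 2) * Real.log 2 := by ring
      _ ≤ 1 / 20 * Real.log 2 := mul_le_mul_of_nonneg_right hsmall (by linarith)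
      _ ≤ 1 / 25 := by linarith
  have h2 : (g * Real.log 3 / l) * (A / (4 * g) * Real.exp (1 / L)) =
      (A * (Real.log 3 / 4 * Real.exp (1 / L))) / l := by
    have : (g : ℝ) ≠ 0 := by linarith
    field_simp
  have h3 : Real.log 3 / 4 * Real.exp (1 / L) ≤ 303 / 1000 := by
    have e1 : Real.log 3 / 4 ≤ 2773 / 10000 := by linarith
    have e2 : (0 : ℝ) ≤ Real.log 3 / 4 := by
      have := Real.log_nonneg (show (1 : ℝ) ≤ 3 by norm_num)
      linarith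
    calc Real.log 3 / 4 * Real.exp (1 / L) ≤ 2773 / 10000 * (12 / 11) :=
          mul_le_mul e1 hexp (Real.exp_pos _).le (by norm_num)
      _ ≤ 303 / 1000 := by norm_num
  rw [h2, show (A : ℝ) / (3 * l) = (A / 3) / l by field_simp]
  have h4 : (1 / 2 : ℝ) ^ L + L * (1 / 2 * (1 / 2 : ℝ) ^ L) ≤ (1 / 25) / l := by
    rw [le_div_iff₀ hlpos]; exact h1
  calc (1 / 2 : ℝ) ^ L + L * (1 / 2 * (1 / 2 : ℝ) ^ L) +
        (A * (Real.log 3 / 4 * Real.exp (1 / L))) / l ≤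
        (1 / 25) / l + (A * (303 / 1000)) / l := by
        apply add_le_add h4
        apply div_le_div_of_nonneg_right _ hlpos.le
        exact mul_le_mul_of_nonneg_left h3 (by linarith)
    _ = (1 / 25 + A * (303 / 1000)) / l := by ring
    _ ≤ (A / 3) / l := by
        apply div_le_div_of_nonneg_right _ hlpos.le
        linarith

/-- middle range -/
lemma mid_range {g L d t h : ℕ} (hg : 1024 ≤ g) (hL : L = Nat.log 2 g + 2) (hd : g < L * d)
    (ht : 2 * t + 1 ≤ h) (hh : h * h ≤ 3 ^ d) :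
    (t : ℝ) * (1 / 2 : ℝ) ^ d ≤ 1 / 2 * (1 / 2 : ℝ) ^ L := by
  obtain ⟨h12, h4g, h2g⟩ := L_facts hg hL
  have hsq := five_sq L h12
  have hd5 : 5 * L ≤ d := by
    by_contra hcon
    push Not at hcon
    have : L * d ≤ L * (5 * L) := Nat.mul_le_mul_left _ hcon.le
    nlinarith
  have h1 : (4 * t ^ 2 : ℕ) ≤ 3 ^ d := by
    refine le_trans ?_ hh
    nlinarith
  have h2 : (4 : ℝ) * t ^ 2 ≤ 3 ^ d := by exact_mod_cast h1
  have h3 : (2 * ((t : ℝ) * (1 / 2 : ℝ) ^ d)) ^ 2 ≤ ((1 / 2 : ℝ) ^ L) ^ 2 := by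
    have e1 : (2 * ((t : ℝ) * (1 / 2 : ℝ) ^ d)) ^ 2 = (4 * t ^ 2) * ((1 / 4 : ℝ) ^ d) := by
      have : ((1 / 2 : ℝ) ^ d) ^ 2 = (1 / 4 : ℝ) ^ d := by
        rw [← pow_mul, mul_comm, pow_mul]; norm_num
      rw [mul_pow, mul_pow, this]
      ring
    have e2 : ((1 / 2 : ℝ) ^ L) ^ 2 = (1 / 4 : ℝ) ^ L := by
      rw [← pow_mul, mul_comm, pow_mul]; norm_num
    rw [e1, e2]
    calc (4 * (t : ℝ) ^ 2) * ((1 / 4 : ℝ) ^ d) ≤ 3 ^ d * (1 / 4 : ℝ) ^ d :=
          mul_le_mul_of_nonneg_right h2 (by positivity)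
      _ = (3 / 4 : ℝ) ^ d := by rw [← mul_pow]; norm_num
      _ ≤ (3 / 4 : ℝ) ^ (5 * L) :=
          pow_le_pow_of_le_one (by norm_num) (by norm_num) hd5
      _ = ((3 / 4 : ℝ) ^ 5) ^ L := by rw [pow_mul]
      _ ≤ (1 / 4 : ℝ) ^ L := by
          apply pow_le_pow_left₀ (by norm_num)
          norm_num
  have h4 := abs_le_of_sq_le_sq h3 (by positivity)
  have h5 := (abs_le.1 h4).2
  linarith

/-- small dimensions -/
lemma small_range {g L d t h A : ℕ} (hg : 1024 ≤ g) (hL : L = Nat.log 2 g + 2) (hd : L * d ≤ g)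
    (ht : 2 * t + 1 ≤ h) (hh : (h - 1) * (2 * g) ≤ A * (3 ^ d - 1)) :
    (t : ℝ) * ((1 + 2 * (1 / 2 : ℝ) ^ L) / 3) ^ d ≤ A / (4 * g) * Real.exp (1 / L) := by
  obtain ⟨h12, h4g, h2g⟩ := L_facts hg hL
  have hgR : (1024 : ℝ) ≤ g := by exact_mod_cast hg
  have hLR : (12 : ℝ) ≤ L := by exact_mod_cast h12
  have h1 : t * (4 * g) ≤ A * 3 ^ d := by
    calc t * (4 * g) = (2 * t) * (2 * g) := by ring
      _ ≤ (h - 1) * (2 * g) := Nat.mul_le_mul_right _ (by omega)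
      _ ≤ A * (3 ^ d - 1) := hh
      _ ≤ A * 3 ^ d := Nat.mul_le_mul_left _ (Nat.sub_le _ _)
  have h1R : (t : ℝ) * (4 * g) ≤ A * 3 ^ d := by exact_mod_cast h1
  have h2 : (t : ℝ) ≤ A / (4 * g) * 3 ^ d := by
    rw [div_mul_eq_mul_div, le_div_iff₀ (by linarith)]
    exact h1R
  have h3 : (1 + 2 * (1 / 2 : ℝ) ^ L) ^ d ≤ Real.exp (1 / L) := by
    have e1 : (1 + 2 * (1 / 2 : ℝ) ^ L) ≤ Real.exp (2 * (1 / 2 : ℝ) ^ L) := by
      have := Real.add_one_le_exp (2 * (1 / 2 : ℝ) ^ L)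
      linarith
    calc (1 + 2 * (1 / 2 : ℝ) ^ L) ^ d ≤ (Real.exp (2 * (1 / 2 : ℝ) ^ L)) ^ d :=
          pow_le_pow_left₀ (by positivity) e1 _
      _ = Real.exp (d * (2 * (1 / 2 : ℝ) ^ L)) := by rw [← Real.exp_nat_mul]
      _ ≤ Real.exp (1 / L) := by
          apply Real.exp_le_exp.2
          rw [le_div_iff₀ (by linarith)]
          have e2 : (L : ℝ) * d ≤ g := by exact_mod_cast hd
          have e3 : (2 : ℝ) * g ≤ 2 ^ L := by
            have : ((2 * g : ℕ) : ℝ) ≤ ((2 ^ L : ℕ) : ℝ) := by exact_mod_cast h2g.le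
            push_cast at this
            exact this
          have e4 : (1 / 2 : ℝ) ^ L * 2 ^ L = 1 := by
            rw [← mul_pow]; norm_num
          have e5 : 0 < (1 / 2 : ℝ) ^ L := by positivity
          calc (d : ℝ) * (2 * (1 / 2 : ℝ) ^ L) * L = (L * d) * 2 * (1 / 2 : ℝ) ^ L := by ring
            _ ≤ g * 2 * (1 / 2 : ℝ) ^ L := by gcongr
            _ = (1 / 2 : ℝ) ^ L * (2 * g) := by ring
            _ ≤ (1 / 2 : ℝ) ^ L * 2 ^ L := by gcongr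
            _ = 1 := e4
  rw [div_pow, mul_div_assoc']
  rw [div_le_iff₀ (by positivity)]
  calc (t : ℝ) * (1 + 2 * (1 / 2 : ℝ) ^ L) ^ d ≤ (A / (4 * g) * 3 ^ d) * Real.exp (1 / L) := by
        apply mul_le_mul h2 h3 (by positivity) (by positivity)
    _ = A / (4 * g) * Real.exp (1 / L) * 3 ^ d := by ring

/-- large dimensions -/
lemma large_range {g L d : ℕ} (hg : 1024 ≤ g) (hL : L = Nat.log 2 g + 2) (hd : g < 2 * d) :
    ((1 + 2 * (1 / 2 : ℝ) ^ 1) / 3) ^ d ≤ (1 / 2 : ℝ) ^ L := by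
  obtain ⟨h12, h4g, h2g⟩ := L_facts hg hL
  have hsq := five_sq L h12
  have hd2 : 2 * L ≤ d := by nlinarith
  calc ((1 + 2 * (1 / 2 : ℝ) ^ 1) / 3) ^ d = (2 / 3 : ℝ) ^ d := by norm_num
    _ ≤ (2 / 3 : ℝ) ^ (2 * L) := pow_le_pow_of_le_one (by norm_num) (by norm_num) hd2
    _ = ((2 / 3 : ℝ) ^ 2) ^ L := by rw [pow_mul]
    _ ≤ (1 / 2 : ℝ) ^ L := by
        apply pow_le_pow_left₀ (by norm_num)
        norm_num

end Pool.Agent.CMN
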