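import Pool.Agent.Lib_helper7.CMN.Cnt
import Pool.Agent.Lib_helper7.CMN.Num

set_option autoImplicit false
set_option linter.unusedSectionVars false

/-!
Counting the degenerate CM types.
-/

namespace Pool.Agent.CMN

open Finset

variable {G S : Type} [Group G] [Fintype G] [MulAction G S] [Fintype S] [DecidableEq S]
variable {c : S → S} {hcG : ∀ (g : G) (s : S), c (g • s) = g • c s}

/-- dimension -/
noncomputable def dd (N : Submodule (RR G) (MM (G := G) c hcG)) : ℕ := Module.finrank (ZMod 3) N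

lemma card_dd (N : Submodule (RR G) (MM (G := G) c hcG)) : Nat.card N = 3 ^ dd N := card_pow N

lemma dd_equiv {N N' : Submodule (RR G) (MM (G := G) c hcG)} (h : Nonempty (N ≃ₗ[RR G] N')) :
    dd N = dd N' := by
  obtain ⟨e⟩ := h
  have h1 : Nat.card N = Nat.card N' := Nat.card_congr e.toEquiv
  rw [card_dd, card_dd] at h1
  exact Nat.pow_right_injective (le_refl _ |>.trans (by norm_num : 2 ≤ 3)) h1

/-- the number of CM types orthogonal to `N` -/
noncomputable def cn (N : Submodule (RR G) (MM (G := G) c hcG)) : ℝ := ((cnt c (fs N)).card : ℝ)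

theorem main_count (hcG : ∀ (g : G) (s : S), c (g • s) = g • c s)
    (htr : ∀ s t : S, ∃ x : G, x • s = t) (hcc : ∀ s, c (c s) = s)
    {z : G} (hz : ∀ s : S, z • s = c s)
    (hNS : ∀ (s : S) (J : Subgroup G), MulAction.stabilizer G s < J → z ∈ J)
    {O : Finset S} (hOc : ∀ s, s ∈ O ↔ c s ∉ O) (hg : 1024 ≤ O.card) (A : ℕ)
    (hA : ∀ s : S, Nat.card {s' : S // MulAction.stabilizer G s' = MulAction.stabilizer G s} ≤ A)
    (hne : ∃ s s' : S, MulAction.stabilizer G s ≠ MulAction.stabilizer G s') (hA2 : 2 ≤ A)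
    (hcard : Fintype.card S = 2 * O.card) (B : Finset (Finset S))
    (hB : ∀ Φ ∈ B, Φ ∈ Types c ∧ IsBad G c Φ) :
    (B.card : ℝ) ≤ A / (3 * Real.log (2 * O.card)) * 2 ^ O.card := by
  classical
  set g := O.card with hgdef
  set L := Nat.log 2 g + 2 with hL
  obtain ⟨h12, h4g, h2g⟩ := L_facts hg hL
  let _ : Fintype (Submodule (RR G) (MM (G := G) c hcG)) := Fintype.ofFinite _
  let Sim : Finset (Submodule (RR G) (MM (G := G) c hcG)) :=
    univ.filter fun N => IsSimpleModule (RR G) N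
  have hSim : ∀ N, N ∈ Sim ↔ IsSimpleModule (RR G) N := fun N => by simp [Sim]
  -- union bound
  have hunion : (B.card : ℝ) ≤ ∑ N ∈ Sim, cn N := by
    have h1 : B ⊆ Sim.biUnion fun N => cnt c (fs N) := by
      intro Φ hΦ
      obtain ⟨N, hN, h⟩ := bad_simple hcG (hB Φ hΦ).1 (hB Φ hΦ).2
      exact mem_biUnion.2 ⟨N, (hSim N).2 hN, h⟩
    have h2 := (card_le_card h1).trans card_biUnion_le
    have h3 : (B.card : ℝ) ≤ ((∑ N ∈ Sim, (cnt c (fs N)).card : ℕ) : ℝ) := by exact_mod_cast h2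
    rw [Nat.cast_sum] at h3
    exact h3
  have hcn0 : ∀ N : Submodule (RR G) (MM (G := G) c hcG), 0 ≤ cn N := fun N => Nat.cast_nonneg _
  -- dimensions
  have hMM := card_MM_le (G := G) (hcG := hcG) hcc hOc
  have hdle : ∀ N : Submodule (RR G) (MM (G := G) c hcG), dd N ≤ g := by
    intro N
    have h1 : Nat.card N ≤ Nat.card (MM (G := G) c hcG) :=
      Nat.card_le_card_of_injective Subtype.val Subtype.val_injective
    rw [card_dd] at h1
    exact (Nat.pow_le_pow_iff_right (by norm_num)).1 (h1.trans hMM)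
  obtain ⟨C, hC1, hC2, hC3⟩ := exists_types (R := RR G) (M := MM (G := G) c hcG)
  have hsumd : ∑ N ∈ C, dd N ≤ g := by
    have h1 : ∏ N ∈ C, Nat.card N = 3 ^ ∑ N ∈ C, dd N := by
      rw [← Finset.prod_pow_eq_pow_sum]
      exact Finset.prod_congr rfl fun N _ => card_dd N
    rw [h1] at hC3
    exact (Nat.pow_le_pow_iff_right (by norm_num)).1 (hC3.trans hMM)
  -- representative
  have hrep : ∀ N : Submodule (RR G) (MM (G := G) c hcG), ∃ N' : Submodule (RR G)
      (MM (G := G) c hcG), N ∈ Sim → N' ∈ C ∧ Nonempty (N ≃ₗ[RR G] N') := by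
    intro N
    by_cases h : N ∈ Sim
    · obtain ⟨N', h1, h2⟩ := hC2 N ((hSim N).1 h)
      exact ⟨N', fun _ => ⟨h1, h2⟩⟩
    · exact ⟨⊥, fun h' => absurd h' h⟩
  choose r hr using hrep
  -- split
  rw [← Finset.sum_filter_add_sum_filter_not Sim (fun N => g < 2 * dd N)] at hunion
  have hlarge : ∑ N ∈ Sim.filter (fun N => g < 2 * dd N), cn N ≤ 2 ^ g * (1 / 2 : ℝ) ^ L := by
    have hc1 : (Sim.filter (fun N => g < 2 * dd N)).card ≤ 1 := by
      rw [Finset.card_le_one]
      intro N hN N' hN'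
      by_contra hne'
      rw [mem_filter] at hN hN'
      have h1 := card_two ((hSim N).1 hN.1) ((hSim N').1 hN'.1) hne'
      rw [card_dd, card_dd, ← pow_add] at h1
      have h2 := (Nat.pow_le_pow_iff_right (by norm_num)).1 (h1.trans hMM)
      omega
    have hb : ∀ N ∈ Sim.filter (fun N => g < 2 * dd N), cn N ≤ 2 ^ g * (1 / 2 : ℝ) ^ L := by
      intro N hN
      have h1 := cnt_bound (hcG := hcG) htr hcc hOc N 1 (by
        have := hdle N
        rw [one_mul]; exact this)
      refine h1.trans ?_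
      apply mul_le_mul_of_nonneg_left _ (by positivity)
      exact large_range hg hL (mem_filter.1 hN).2
    refine (Finset.sum_le_card_nsmul _ _ _ hb).trans ?_
    rw [nsmul_eq_mul]
    have h2 : (((Sim.filter (fun N => g < 2 * dd N)).card : ℕ) : ℝ) ≤ 1 := by exact_mod_cast hc1
    have h3 : 0 ≤ 2 ^ g * (1 / 2 : ℝ) ^ L := by positivity
    nlinarith
  -- the other modules, by type
  let T : Submodule (RR G) (MM (G := G) c hcG) → Finset (Submodule (RR G) (MM (G := G) c hcG)) :=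
    fun N' => Sim.filter fun N => r N = N'
  have hTmem : ∀ N', ∀ N ∈ T N', N ∈ Sim ∧ r N = N' := fun N' N h => mem_filter.1 h
  have hsmall : ∑ N ∈ Sim.filter (fun N => ¬ g < 2 * dd N), cn N ≤
      ∑ N' ∈ C.filter (fun N' => ¬ g < 2 * dd N'), ∑ N ∈ T N', cn N := by
    rw [← Finset.sum_biUnion]
    · apply Finset.sum_le_sum_of_subset_of_nonneg
      · intro N hN
        rw [mem_filter] at hN
        obtain ⟨h1, h2⟩ := hr N hN.1
        refine mem_biUnion.2 ⟨r N, mem_filter.2 ⟨h1, ?_⟩, mem_filter.2 ⟨hN.1, rfl⟩⟩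
        rw [← dd_equiv h2]
        exact hN.2
      · intro N _ _
        exact hcn0 N
    · intro a _ b _ hab
      rw [Function.onFun, Finset.disjoint_left]
      intro N h1 h2
      exact hab ((hTmem _ _ h1).2.symm.trans (hTmem _ _ h2).2)
  -- bound for one type
  have hT : ∀ N' ∈ C, ∀ l : ℕ, l * dd N' ≤ g →
      ∑ N ∈ T N', cn N ≤ 2 ^ g * ((T N').card * ((1 + 2 * (1 / 2 : ℝ) ^ l) / 3) ^ dd N') := by
    intro N' _ l hl
    have h1 : ∀ N ∈ T N', cn N ≤ 2 ^ g * ((1 + 2 * (1 / 2 : ℝ) ^ l) / 3) ^ dd N' := by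
      intro N hN
      obtain ⟨h2, h3⟩ := hTmem _ _ hN
      have h4 : dd N = dd N' := by
        rw [← h3]
        exact dd_equiv (hr N h2).2
      rw [← h4]
      exact cnt_bound (hcG := hcG) htr hcc hOc N l (by rw [← h4] at hl; exact hl)
    refine (Finset.sum_le_card_nsmul _ _ _ h1).trans (le_of_eq ?_)
    rw [nsmul_eq_mul]
    ring
  have hcop : ∀ N' ∈ C, 2 * (T N').card + 1 ≤ Nat.card (N' →ₗ[RR G] MM (G := G) c hcG) := by
    intro N' hN'
    apply copies (fun x => double_eq_zero) (hC1 N' hN')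
    intro N hN
    obtain ⟨h2, h3⟩ := hTmem _ _ hN
    have h4 := (hr N h2).2
    rw [h3] at h4
    obtain ⟨e⟩ := h4
    exact ⟨e.symm⟩
  have hcnt1 : ∀ N' ∈ C, (Nat.card (N' →ₗ[RR G] MM (G := G) c hcG) - 1) * (2 * g) ≤
      A * (3 ^ dd N' - 1) := by
    intro N' _
    have := hom_count hz hcc hNS htr A hA N'
    rwa [hcard, card_dd] at this
  have hcnt2 : ∀ N' ∈ C, Nat.card (N' →ₗ[RR G] MM (G := G) c hcG) *
      Nat.card (N' →ₗ[RR G] MM (G := G) c hcG) ≤ 3 ^ dd N' := by
    intro N' _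
    obtain ⟨s, s', hss⟩ := hne
    have := hom_sq hz hcc hNS htr s s' hss N'
    rwa [card_dd] at this
  -- two kinds
  rw [← Finset.sum_filter_add_sum_filter_not (C.filter (fun N' => ¬ g < 2 * dd N'))
    (fun N' => g < L * dd N')] at hsmall
  have hmid : ∑ N' ∈ (C.filter (fun N' => ¬ g < 2 * dd N')).filter (fun N' => g < L * dd N'),
      ∑ N ∈ T N', cn N ≤ 2 ^ g * (L * (1 / 2 * (1 / 2 : ℝ) ^ L)) := by
    set D := (C.filter (fun N' => ¬ g < 2 * dd N')).filter (fun N' => g < L * dd N') with hD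
    have hb : ∀ N' ∈ D, ∑ N ∈ T N', cn N ≤ 2 ^ g * (1 / 2 * (1 / 2 : ℝ) ^ L) := by
      intro N' hN'
      rw [hD, mem_filter, mem_filter] at hN'
      obtain ⟨⟨h1, h2⟩, h3⟩ := hN'
      refine (hT N' h1 2 (by omega)).trans ?_
      apply mul_le_mul_of_nonneg_left _ (by positivity)
      have h4 := mid_range hg hL h3 (hcop N' h1) (hcnt2 N' h1)
      have h5 : ((1 + 2 * (1 / 2 : ℝ) ^ 2) / 3) = 1 / 2 := by norm_num
      rw [h5]
      exact h4
    have hDc : D.card ≤ L := by
      have h1 : D.card * g ≤ L * ∑ N' ∈ D, dd N' := by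
        rw [Finset.mul_sum]
        calc D.card * g = ∑ N' ∈ D, g := by simp
          _ ≤ _ := Finset.sum_le_sum fun N' hN' => (mem_filter.1 hN').2.le
      have h2 : ∑ N' ∈ D, dd N' ≤ ∑ N' ∈ C, dd N' :=
        Finset.sum_le_sum_of_subset ((filter_subset _ _).trans (filter_subset _ _))
      have h3 : D.card * g ≤ L * g := h1.trans (Nat.mul_le_mul_left _ (h2.trans hsumd))
      exact Nat.le_of_mul_le_mul_right h3 (by omega)
    refine (Finset.sum_le_card_nsmul _ _ _ hb).trans ?_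
    rw [nsmul_eq_mul]
    have h2 : (D.card : ℝ) ≤ L := by exact_mod_cast hDc
    calc (D.card : ℝ) * (2 ^ g * (1 / 2 * (1 / 2 : ℝ) ^ L)) ≤
        L * (2 ^ g * (1 / 2 * (1 / 2 : ℝ) ^ L)) := by gcongr
      _ = _ := by ring
  have htiny : ∑ N' ∈ (C.filter (fun N' => ¬ g < 2 * dd N')).filter (fun N' => ¬ g < L * dd N'),
      ∑ N ∈ T N', cn N ≤ 2 ^ g * ((g * Real.log 3 / Real.log (2 * g)) *
        (A / (4 * g) * Real.exp (1 / L))) := by
    set D := (C.filter (fun N' => ¬ g < 2 * dd N')).filter (fun N' => ¬ g < L * dd N') with hD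
    have hDC : D ⊆ C := (filter_subset _ _).trans (filter_subset _ _)
    have hb : ∀ N' ∈ D, ∑ N ∈ T N', cn N ≤ 2 ^ g * (A / (4 * g) * Real.exp (1 / L)) := by
      intro N' hN'
      rw [hD, mem_filter, mem_filter] at hN'
      obtain ⟨⟨h1, h2⟩, h3⟩ := hN'
      refine (hT N' h1 L (by omega)).trans ?_
      apply mul_le_mul_of_nonneg_left _ (by positivity)
      exact small_range hg hL (by omega) (hcop N' h1) (hcnt1 N' h1)
    have hgR : (1024 : ℝ) ≤ g := by exact_mod_cast hg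
    have hlpos : 0 < Real.log (2 * g) := Real.log_pos (by linarith)
    have hDc : (D.card : ℝ) ≤ g * Real.log 3 / Real.log (2 * g) := by
      rw [le_div_iff₀ hlpos]
      have h1 : ∀ N' ∈ C, Real.log (2 * g) ≤ dd N' * Real.log 3 := by
        intro N' hN'
        have hbot : N' ≠ ⊥ := by
          have := hC1 N' hN'
          exact (isSimpleModule_iff_isAtom.1 this).1
        have h2 := card_S_lt hz hcc hNS htr hbot
        rw [hcard, card_dd] at h2
        rw [← Real.log_pow]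
        apply Real.log_le_log (by linarith)
        have : ((2 * g : ℕ) : ℝ) ≤ ((3 ^ dd N' : ℕ) : ℝ) := by exact_mod_cast (by omega)
        push_cast at this
        exact this
      calc (D.card : ℝ) * Real.log (2 * g) = ∑ N' ∈ D, Real.log (2 * g) := by simp
        _ ≤ ∑ N' ∈ D, dd N' * Real.log 3 := Finset.sum_le_sum fun N' hN' => h1 N' (hDC hN')
        _ = ((∑ N' ∈ D, dd N' : ℕ) : ℝ) * Real.log 3 := by
            rw [← Finset.sum_mul]; push_cast; rfl
        _ ≤ g * Real.log 3 := by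
            apply mul_le_mul_of_nonneg_right _ (Real.log_nonneg (by norm_num))
            have : ∑ N' ∈ D, dd N' ≤ g := (Finset.sum_le_sum_of_subset hDC).trans hsumd
            exact_mod_cast this
    refine (Finset.sum_le_card_nsmul _ _ _ hb).trans ?_
    rw [nsmul_eq_mul]
    calc (D.card : ℝ) * (2 ^ g * (A / (4 * g) * Real.exp (1 / L))) ≤
        (g * Real.log 3 / Real.log (2 * g)) * (2 ^ g * (A / (4 * g) * Real.exp (1 / L))) := by
          gcongr
      _ = _ := by ring
  have hfin := final_num hg hL hA2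
  calc (B.card : ℝ) ≤ 2 ^ g * (1 / 2 : ℝ) ^ L + (2 ^ g * (L * (1 / 2 * (1 / 2 : ℝ) ^ L)) +
        2 ^ g * ((g * Real.log 3 / Real.log (2 * g)) * (A / (4 * g) * Real.exp (1 / L)))) := by
        refine hunion.trans (add_le_add hlarge (hsmall.trans (add_le_add hmid htiny)))
    _ = 2 ^ g * ((1 / 2 : ℝ) ^ L + L * (1 / 2 * (1 / 2 : ℝ) ^ L) +
        (g * Real.log 3 / Real.log (2 * g)) * (A / (4 * g) * Real.exp (1 / L))) := by ring
    _ ≤ 2 ^ g * (A / (3 * Real.log (2 * g))) := by gcongr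
    _ = _ := by ring

end Pool.Agent.CMN
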