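import Pool.Agent.Lib_helper7.CMN.Simple

set_option autoImplicit false
set_option linter.unusedSectionVars false

/-!
The odd functions with values in `ZMod 3` on a finite `G`-set as a module over the group algebra.
-/

namespace Pool.Agent.CMN

variable {G S : Type} [Group G] [MulAction G S] [Fintype S] [DecidableEq S]

/-- odd functions -/
def Odd3 (c : S → S) : Submodule (ZMod 3) (S → ZMod 3) where
  carrier := {f | ∀ s, f (c s) = - f s}
  add_mem' := by
    intro f f' h h' s
    rw [Pi.add_apply, Pi.add_apply, h, h']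
    ring
  zero_mem' := by intro s; simp
  smul_mem' := by
    intro a f h s
    rw [Pi.smul_apply, Pi.smul_apply, h]
    simp

lemma mem_Odd3 {c : S → S} {f : S → ZMod 3} : f ∈ Odd3 c ↔ ∀ s, f (c s) = - f s := Iff.rfl

/-- the representation on odd functions -/
def rho (G : Type) [Group G] [MulAction G S] (c : S → S)
    (hcG : ∀ (g : G) (s : S), c (g • s) = g • c s) : Representation (ZMod 3) G (Odd3 c) where
  toFun g :=
    { toFun := fun f => ⟨fun s => f.1 (g⁻¹ • s), fun s => by
        show f.1 (g⁻¹ • c s) = - f.1 (g⁻¹ • s)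
        rw [← hcG]
        exact f.2 _⟩
      map_add' := by intro f f'; rfl
      map_smul' := by intro a f; rfl }
  map_one' := by
    ext f s
    simp
  map_mul' := by
    intro g h
    ext f s
    simp [mul_smul]

section

variable (c : S → S) (hcG : ∀ (g : G) (s : S), c (g • s) = g • c s)

/-- the module -/
abbrev MM : Type := (rho G c hcG).asModule

/-- the group algebra -/
abbrev RR (G : Type) [Group G] : Type := MonoidAlgebra (ZMod 3) G

instance : Finite (MM (G := G) c hcG) := inferInstanceAs (Finite (Odd3 c))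

/-- the underlying function -/
noncomputable def toFn : MM (G := G) c hcG →ₗ[ZMod 3] (S → ZMod 3) :=
  (Odd3 c).subtype.comp (rho G c hcG).asModuleEquiv.toLinearMap

lemma toFn_inj : Function.Injective (toFn (G := G) c hcG) := by
  intro x y h
  exact (rho G c hcG).asModuleEquiv.injective (Subtype.ext h)

lemma toFn_odd (x : MM (G := G) c hcG) (s : S) :
    toFn c hcG x (c s) = - toFn c hcG x s := ((rho G c hcG).asModuleEquiv x).2 s

lemma toFn_smul (g : G) (x : MM (G := G) c hcG) (s : S) :
    toFn c hcG (MonoidAlgebra.of (ZMod 3) G g • x) s = toFn c hcG x (g⁻¹ • s) := by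
  show (((rho G c hcG).asModuleEquiv (MonoidAlgebra.of (ZMod 3) G g • x)).1 : S → ZMod 3) s = _
  rw [Representation.asModuleEquiv_map_smul, MonoidAlgebra.of_apply,
    Representation.asAlgebraHom_single]
  simp only [one_smul]
  rfl

lemma exists_toFn {f : S → ZMod 3} (hf : f ∈ Odd3 c) :
    ∃ x : MM (G := G) c hcG, toFn c hcG x = f :=
  ⟨(rho G c hcG).asModuleEquiv.symm ⟨f, hf⟩, by
    show (((rho G c hcG).asModuleEquiv ((rho G c hcG).asModuleEquiv.symm ⟨f, hf⟩)).1) = f
    rw [LinearEquiv.apply_symm_apply]⟩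

/-- a subspace stable under the group is a submodule -/
def mkSub (p : Submodule (ZMod 3) (MM (G := G) c hcG))
    (h : ∀ g : G, ∀ x ∈ p, MonoidAlgebra.of (ZMod 3) G g • x ∈ p) :
    Submodule (RR G) (MM (G := G) c hcG) where
  carrier := p
  add_mem' := p.add_mem
  zero_mem' := p.zero_mem
  smul_mem' := by
    intro r x hx
    induction r using MonoidAlgebra.induction_on with
    | of g => exact h g x hx
    | add a b ha hb =>
      rw [add_smul]
      exact p.add_mem ha hb
    | smul a b hb =>
      rw [smul_assoc]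
      exact p.smul_mem a hb

variable {c hcG}

lemma double_eq_zero {x : MM (G := G) c hcG} (h : x + x = 0) : x = 0 := by
  apply toFn_inj c hcG
  have h1 := congrArg (toFn c hcG) h
  rw [map_add, map_zero] at h1
  rw [map_zero]
  funext s
  have h2 := congrFun h1 s
  simp only [Pi.add_apply, Pi.zero_apply] at h2 ⊢
  revert h2
  generalize toFn c hcG x s = a
  revert a
  decide

/-- evaluations -/
noncomputable def ev {N : Submodule (RR G) (MM (G := G) c hcG)}
    (ι : N →ₗ[RR G] MM (G := G) c hcG) (s : S) : Module.Dual (ZMod 3) N :=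
  (LinearMap.proj s).comp ((toFn c hcG).comp (ι.restrictScalars (ZMod 3)))

lemma ev_apply {N : Submodule (RR G) (MM (G := G) c hcG)}
    (ι : N →ₗ[RR G] MM (G := G) c hcG) (s : S) (x : N) : ev ι s x = toFn c hcG (ι x) s := rfl

lemma ev_smul {N : Submodule (RR G) (MM (G := G) c hcG)}
    (ι : N →ₗ[RR G] MM (G := G) c hcG) (s : S) (g : G) (x : N) :
    ev ι s (MonoidAlgebra.of (ZMod 3) G g • x) = ev ι (g⁻¹ • s) x := by
  rw [ev_apply, ev_apply, map_smul, toFn_smul]

lemma ev_inj (htr : ∀ s t : S, ∃ x : G, x • s = t) {N : Submodule (RR G) (MM (G := G) c hcG)}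
    {ι ι' : N →ₗ[RR G] MM (G := G) c hcG} {s : S} (h : ev ι s = ev ι' s) : ι = ι' := by
  ext x
  apply toFn_inj c hcG
  funext t
  obtain ⟨g, hg⟩ := htr s t
  have h1 := congrArg (fun φ : Module.Dual (ZMod 3) N =>
    φ (MonoidAlgebra.of (ZMod 3) G g⁻¹ • x)) h
  simp only [ev_smul, inv_inv, hg] at h1
  exact h1

/-- the stabilizer of a functional -/
def stab {N : Submodule (RR G) (MM (G := G) c hcG)} (t : Module.Dual (ZMod 3) N) : Subgroup G where
  carrier := {g | ∀ x, t (MonoidAlgebra.of (ZMod 3) G g • x) = t x}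
  one_mem' := by
    intro x
    rw [map_one, one_smul]
  mul_mem' := by
    intro g h hg hh x
    rw [map_mul, mul_smul, hg, hh]
  inv_mem' := by
    intro g hg x
    have := hg (MonoidAlgebra.of (ZMod 3) G g⁻¹ • x)
    rw [← mul_smul, ← map_mul, mul_inv_cancel, map_one, one_smul] at this
    exact this.symm

lemma mem_stab {N : Submodule (RR G) (MM (G := G) c hcG)} {t : Module.Dual (ZMod 3) N} {g : G} :
    g ∈ stab t ↔ ∀ x, t (MonoidAlgebra.of (ZMod 3) G g • x) = t x := Iff.rfl

lemma stabilizer_le {N : Submodule (RR G) (MM (G := G) c hcG)}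
    (ι : N →ₗ[RR G] MM (G := G) c hcG) (s : S) : MulAction.stabilizer G s ≤ stab (ev ι s) := by
  intro g hg x
  rw [ev_smul]
  have : g⁻¹ • s = s := by
    rw [inv_smul_eq_iff]
    exact (MulAction.mem_stabilizer_iff.1 hg).symm
  rw [this]

variable {z : G} (hz : ∀ s : S, z • s = c s) (hcc : ∀ s, c (c s) = s)
  (hNS : ∀ (s : S) (J : Subgroup G), MulAction.stabilizer G s < J → z ∈ J)

include hz hcc in
lemma not_mem_stab {N : Submodule (RR G) (MM (G := G) c hcG)}
    {ι : N →ₗ[RR G] MM (G := G) c hcG} {s : S} (h : z ∈ stab (ev ι s)) : ev ι s = 0 := by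
  ext x
  have h1 := h x
  rw [ev_smul] at h1
  have h2 : z⁻¹ • s = c s := by
    rw [inv_smul_eq_iff, hz, hcc]
  rw [h2, ev_apply, toFn_odd, ev_apply] at h1
  rw [ev_apply, LinearMap.zero_apply]
  revert h1
  generalize toFn c hcG (ι x) s = a
  revert a
  decide

lemma ev_ne_zero (htr : ∀ s t : S, ∃ x : G, x • s = t) {N : Submodule (RR G) (MM (G := G) c hcG)}
    {ι : N →ₗ[RR G] MM (G := G) c hcG} (hι : ι ≠ 0) (s : S) : ev ι s ≠ 0 := by
  intro h
  apply hι
  apply ev_inj htr (s := s)
  rw [h]
  ext x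
  rw [ev_apply]
  simp

include hz hcc hNS in
lemma stab_eq (htr : ∀ s t : S, ∃ x : G, x • s = t) {N : Submodule (RR G) (MM (G := G) c hcG)}
    {ι : N →ₗ[RR G] MM (G := G) c hcG} (hι : ι ≠ 0) (s : S) :
    stab (ev ι s) = MulAction.stabilizer G s := by
  by_contra hne
  have hlt : MulAction.stabilizer G s < stab (ev ι s) :=
    lt_of_le_of_ne (stabilizer_le ι s) (Ne.symm hne)
  exact ev_ne_zero htr hι s (not_mem_stab hz hcc (hNS s _ hlt))

/-- the dual has the same size -/
lemma card_dual (N : Submodule (RR G) (MM (G := G) c hcG)) :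
    Nat.card (Module.Dual (ZMod 3) N) = Nat.card N := by
  have h1 : Nat.card (Module.Dual (ZMod 3) N) = 3 ^ Module.finrank (ZMod 3) N := by
    rw [← Subspace.dual_finrank_eq, Module.natCard_eq_pow_finrank (K := ZMod 3)]
    simp
  rw [h1, Module.natCard_eq_pow_finrank (K := ZMod 3)]
  simp

instance finDual (N : Submodule (RR G) (MM (G := G) c hcG)) :
    Finite (Module.Dual (ZMod 3) N) := DFunLike.finite _

include hz hcc hNS in
/-- distinct evaluations -/
theorem card_S_lt (htr : ∀ s t : S, ∃ x : G, x • s = t)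
    {N : Submodule (RR G) (MM (G := G) c hcG)} (hN : N ≠ ⊥) : Fintype.card S + 1 ≤ Nat.card N := by
  classical
  let _ : Fintype (Module.Dual (ZMod 3) N) := Fintype.ofFinite _
  have hι : (N.subtype : N →ₗ[RR G] MM (G := G) c hcG) ≠ 0 := by
    intro h
    apply hN
    rw [eq_bot_iff]
    intro x hx
    have := congrArg (fun f : N →ₗ[RR G] MM (G := G) c hcG => f ⟨x, hx⟩) h
    exact this
  have hinj : Function.Injective (fun s : S => ev N.subtype s) := by
    intro s s' h
    obtain ⟨g, hg⟩ := htr s s'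
    have h1 : g⁻¹ ∈ stab (ev N.subtype s) := by
      intro x
      rw [ev_smul, inv_inv, hg]
      exact congrArg (fun φ : Module.Dual (ZMod 3) N => φ x) h.symm
    rw [stab_eq hz hcc hNS htr hι, inv_mem_iff, MulAction.mem_stabilizer_iff] at h1
    rw [← hg, h1]
  rw [← card_dual N, Nat.card_eq_fintype_card]
  have h0 : (0 : Module.Dual (ZMod 3) N) ∉ Finset.univ.image (fun s : S => ev N.subtype s) := by
    intro h
    obtain ⟨s, _, hs⟩ := Finset.mem_image.1 h
    exact ev_ne_zero htr hι s hs
  have h6 := Finset.card_le_univ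
    (insert (0 : Module.Dual (ZMod 3) N) (Finset.univ.image (fun s : S => ev N.subtype s)))
  rw [Finset.card_insert_of_notMem h0, Finset.card_image_of_injective _ hinj,
    Finset.card_univ] at h6
  exact h6

include hz hcc hNS in
/-- orbit counting -/
theorem hom_count (htr : ∀ s t : S, ∃ x : G, x • s = t) (A : ℕ)
    (hA : ∀ s : S, Nat.card {s' : S // MulAction.stabilizer G s' = MulAction.stabilizer G s} ≤ A)
    (N : Submodule (RR G) (MM (G := G) c hcG)) :
    (Nat.card (N →ₗ[RR G] MM (G := G) c hcG) - 1) * Fintype.card S ≤ A * (Nat.card N - 1) := by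
  classical
  let _ : Fintype (Module.Dual (ZMod 3) N) := Fintype.ofFinite _
  let _ : Fintype (N →ₗ[RR G] MM (G := G) c hcG) := Fintype.ofFinite _
  let P : Finset ((N →ₗ[RR G] MM (G := G) c hcG) × S) := (Finset.univ.erase 0) ×ˢ Finset.univ
  have hP : P.card = (Nat.card (N →ₗ[RR G] MM (G := G) c hcG) - 1) * Fintype.card S := by
    rw [Finset.card_product, Finset.card_erase_of_mem (Finset.mem_univ _), Finset.card_univ,
      Finset.card_univ, Nat.card_eq_fintype_card]
  rw [← hP]
  have h1 := Finset.card_le_mul_card_image (s := P) (f := fun x => ev x.1 x.2) A (by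
    intro t ht
    obtain ⟨⟨ι0, s0⟩, h0, rfl⟩ := Finset.mem_image.1 ht
    simp only
    have hι0 : ι0 ≠ 0 := by
      have := (Finset.mem_product.1 h0).1
      exact Finset.ne_of_mem_erase this
    refine le_trans ?_ (hA s0)
    rw [Nat.card_eq_fintype_card, Fintype.card_subtype]
    refine Finset.card_le_card_of_injOn (fun x => x.2) ?_ ?_
    · intro x hx
      obtain ⟨hx1, hx2⟩ := Finset.mem_filter.1 hx
      have hι : x.1 ≠ 0 := Finset.ne_of_mem_erase (Finset.mem_product.1 hx1).1
      rw [Finset.mem_coe, Finset.mem_filter]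
      refine ⟨Finset.mem_univ _, ?_⟩
      rw [← stab_eq hz hcc hNS htr hι x.2, ← stab_eq hz hcc hNS htr hι0 s0, hx2]
    · rintro ⟨ι, s⟩ hx ⟨ι', s'⟩ hx' h
      simp only at h
      subst h
      have e1 := (Finset.mem_filter.1 hx).2
      have e2 := (Finset.mem_filter.1 hx').2
      simp only at e1 e2
      rw [ev_inj htr (e1.trans e2.symm)])
  refine h1.trans (Nat.mul_le_mul_left _ ?_)
  have h2 : P.image (fun x => ev x.1 x.2) ⊆ Finset.univ.erase 0 := by
    intro t ht
    obtain ⟨⟨ι, s⟩, h0, rfl⟩ := Finset.mem_image.1 ht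
    have hι : ι ≠ 0 := Finset.ne_of_mem_erase (Finset.mem_product.1 h0).1
    exact Finset.mem_erase.2 ⟨ev_ne_zero htr hι s, Finset.mem_univ _⟩
  refine (Finset.card_le_card h2).trans ?_
  rw [Finset.card_erase_of_mem (Finset.mem_univ _), Finset.card_univ, ← Nat.card_eq_fintype_card,
    card_dual]

include hz hcc hNS in
/-- the intersection trick -/
theorem hom_sq (htr : ∀ s t : S, ∃ x : G, x • s = t) (s s' : S) (hss : MulAction.stabilizer G s ≠
    MulAction.stabilizer G s') [Finite G] (N : Submodule (RR G) (MM (G := G) c hcG)) :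
    Nat.card (N →ₗ[RR G] MM (G := G) c hcG) * Nat.card (N →ₗ[RR G] MM (G := G) c hcG) ≤
      Nat.card N := by
  classical
  rw [← card_dual N, ← Nat.card_prod]
  refine Nat.card_le_card_of_injective
    (fun x : (N →ₗ[RR G] MM (G := G) c hcG) × (N →ₗ[RR G] MM (G := G) c hcG) =>
      ev x.1 s + ev x.2 s') ?_
  -- kernel is trivial
  have key : ∀ ι ι' : N →ₗ[RR G] MM (G := G) c hcG, ev ι s + ev ι' s' = 0 → ι = 0 := by
    intro ι ι' h
    by_contra hι
    have h1 : ev ι s = - ev ι' s' := eq_neg_of_add_eq_zero_left h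
    have h2 : stab (ev ι' s') ≤ stab (ev ι s) := by
      intro g hg x
      rw [h1, LinearMap.neg_apply, LinearMap.neg_apply, hg x]
    have h3 : MulAction.stabilizer G s' ≤ MulAction.stabilizer G s := by
      rw [← stab_eq hz hcc hNS htr hι s]
      exact (stabilizer_le ι' s').trans h2
    -- equality by cardinality
    obtain ⟨g, hg⟩ := htr s s'
    have h4 : MulAction.stabilizer G s' = MulAction.stabilizer G s := by
      apply Subgroup.eq_of_le_of_card_ge h3
      rw [← hg, MulAction.stabilizer_smul_eq_stabilizer_map_conj]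
      rw [Subgroup.card_map_of_injective (MulAut.conj g).injective]
    exact hss h4.symm
  have hevadd : ∀ (ι ι' : N →ₗ[RR G] MM (G := G) c hcG) (s : S),
      ev (ι - ι') s = ev ι s - ev ι' s := by
    intro ι ι' s
    ext x
    rw [ev_apply, LinearMap.sub_apply, LinearMap.sub_apply, ev_apply, ev_apply, map_sub,
      Pi.sub_apply]
  rintro ⟨a, b⟩ ⟨a', b'⟩ h
  simp only at h
  have h1 : ev (a - a') s + ev (b - b') s' = 0 := by
    rw [hevadd, hevadd]
    have : ev a s - ev a' s + (ev b s' - ev b' s') = (ev a s + ev b s') - (ev a' s + ev b' s') := by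
      abel
    rw [this, h, sub_self]
  have h2 : a = a' := sub_eq_zero.1 (key _ _ h1)
  subst h2
  have h3 : ev b s' = ev b' s' := add_left_cancel h
  rw [ev_inj htr h3]

end

end Pool.Agent.CMN
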