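import Mathlib

set_option autoImplicit false
set_option linter.unusedSectionVars false

/-!
Simple submodules of a finite module: representatives of the isomorphism types, number of copies.
-/

namespace Pool.Agent.CMN

section types

variable {R M : Type} [Ring R] [AddCommGroup M] [Module R M] [Finite M]

lemma card_mul_le {A B : Submodule R M} (h : Disjoint A B) :
    Nat.card A * Nat.card B ≤ Nat.card (A ⊔ B : Submodule R M) := by
  rw [← Nat.card_prod]
  refine Nat.card_le_card_of_injective
    (fun x : A × B => (⟨x.1.1 + x.2.1, Submodule.add_mem_sup x.1.2 x.2.2⟩ :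
      (A ⊔ B : Submodule R M))) ?_
  rintro ⟨a, b⟩ ⟨a', b'⟩ hab
  have h1 : a.1 + b.1 = a'.1 + b'.1 := congrArg Subtype.val hab
  have h2 : a.1 - a'.1 = b'.1 - b.1 := by
    rw [sub_eq_sub_iff_add_eq_add, h1, add_comm]
  have h3 : a.1 - a'.1 = 0 := by
    have m1 : a.1 - a'.1 ∈ A := A.sub_mem a.2 a'.2
    have m2 : a.1 - a'.1 ∈ B := by rw [h2]; exact B.sub_mem b'.2 b.2
    have := (Submodule.disjoint_def.1 h) _ m1 m2
    exact this
  have h4 : b'.1 - b.1 = 0 := by rw [← h2, h3]
  exact Prod.ext (Subtype.ext (sub_eq_zero.1 h3)) (Subtype.ext (sub_eq_zero.1 h4).symm)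

lemma card_le_of_le {A B : Submodule R M} (h : A ≤ B) : Nat.card A ≤ Nat.card B :=
  Nat.card_le_card_of_injective (Submodule.inclusion h) (Submodule.inclusion_injective h)

/-- representatives of the isomorphism types of simple submodules -/
theorem exists_types : ∃ C : Finset (Submodule R M), (∀ N ∈ C, IsSimpleModule R N) ∧
    (∀ N : Submodule R M, IsSimpleModule R N → ∃ N' ∈ C, Nonempty (N ≃ₗ[R] N')) ∧
    ∏ N ∈ C, Nat.card N ≤ Nat.card M := by
  classical
  have : Finite (Submodule R M) := inferInstance
  let _ : Fintype (Submodule R M) := Fintype.ofFinite _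
  let K : Finset (Submodule R M) := Finset.univ.filter (· ∈ isotypicComponents R M)
  have hK : ∀ c, c ∈ K ↔ c ∈ isotypicComponents R M := fun c => by simp [K]
  have hrep : ∀ c : Submodule R M, ∃ N : Submodule R M, c ∈ K →
      IsSimpleModule R N ∧ c = isotypicComponent R M N := by
    intro c
    by_cases hc : c ∈ K
    · obtain ⟨N, hN, h⟩ := (hK c).1 hc
      exact ⟨N, fun _ => ⟨hN, h⟩⟩
    · exact ⟨⊥, fun h => absurd h hc⟩
  choose rep hrep using hrep
  have hle : ∀ c ∈ K, rep c ≤ c := by
    intro c hc
    have := (hrep c hc).2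
    conv_rhs => rw [this]
    exact Submodule.le_isotypicComponent (rep c)
  refine ⟨K.image rep, ?_, ?_, ?_⟩
  · intro N hN
    obtain ⟨c, hc, rfl⟩ := Finset.mem_image.1 hN
    exact (hrep c hc).1
  · intro N hN
    have hc : isotypicComponent R M N ∈ K := (hK _).2 ⟨N, hN, rfl⟩
    refine ⟨rep (isotypicComponent R M N), Finset.mem_image_of_mem _ hc, ?_⟩
    obtain ⟨h1, h2⟩ := hrep _ hc
    have h3 : IsIsotypicOfType R (isotypicComponent R M N) N :=
      IsIsotypicOfType.isotypicComponent R M N
    have h4 := isIsotypicOfType_submodule_iff.1 h3 (rep (isotypicComponent R M N))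
    obtain ⟨e⟩ := h4 (hle _ hc)
    exact ⟨e.symm⟩
  · have hind := sSupIndep_isotypicComponents R M
    have key : ∀ T : Finset (Submodule R M), T ⊆ K →
        ∏ c ∈ T, Nat.card (rep c) ≤ Nat.card (T.sup id : Submodule R M) := by
      intro T
      induction T using Finset.induction_on with
      | empty => intro _; simp
      | insert c T hcT ih =>
        intro hT
        have hcK : c ∈ K := hT (Finset.mem_insert_self _ _)
        have hTK : T ⊆ K := fun x hx => hT (Finset.mem_insert_of_mem hx)
        rw [Finset.prod_insert hcT, Finset.sup_insert]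
        have hd : Disjoint c (T.sup id) := by
          refine (hind ((hK c).1 hcK)).mono_right ?_
          apply Finset.sup_le
          intro x hx
          apply le_sSup
          exact ⟨(hK x).1 (hTK hx), fun h => hcT (by rw [← (Set.mem_singleton_iff.1 h)]; exact hx)⟩
        refine le_trans (Nat.mul_le_mul (card_le_of_le (hle c hcK)) (ih hTK)) ?_
        exact card_mul_le hd
    have h5 : ∏ N ∈ K.image rep, Nat.card N ≤ ∏ c ∈ K, Nat.card (rep c) := by
      have hinj : Set.InjOn rep K := by
        intro c hc c' hc' h
        rw [(hrep c hc).2, (hrep c' hc').2, h]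
      rw [Finset.prod_image hinj]
    refine h5.trans ((key K (Finset.Subset.refl _)).trans ?_)
    exact Nat.card_le_card_of_injective Subtype.val Subtype.val_injective

instance finiteHom (N : Submodule R M) : Finite (N →ₗ[R] M) := DFunLike.finite _

/-- two distinct simple submodules are independent -/
lemma card_two {N N' : Submodule R M} (h : IsSimpleModule R N) (h' : IsSimpleModule R N')
    (hne : N ≠ N') : Nat.card N * Nat.card N' ≤ Nat.card M := by
  have hd : Disjoint N N' := by
    rw [isSimpleModule_iff_isAtom] at h h'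
    exact h.disjoint_of_ne h' hne
  exact (card_mul_le hd).trans (Nat.card_le_card_of_injective Subtype.val Subtype.val_injective)

/-- number of copies -/
theorem copies (h2 : ∀ x : M, x + x = 0 → x = 0) {N : Submodule R M} (hN : IsSimpleModule R N)
    (T : Finset (Submodule R M)) (hT : ∀ N' ∈ T, Nonempty (N ≃ₗ[R] N')) :
    2 * T.card + 1 ≤ Nat.card (N →ₗ[R] M) := by
  classical
  let _ : Fintype (N →ₗ[R] M) := Fintype.ofFinite _
  have hx : ∃ x : N, x ≠ 0 := by
    have := hN
    have hnt : Nontrivial N := IsSimpleModule.nontrivial R N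
    exact exists_ne 0
  obtain ⟨x, hx⟩ := hx
  have hemb : ∀ N' : Submodule R M, ∃ ι : N →ₗ[R] M, N' ∈ T → ι ≠ 0 ∧ LinearMap.range ι = N' := by
    intro N'
    by_cases h : N' ∈ T
    · obtain ⟨e⟩ := hT N' h
      refine ⟨N'.subtype.comp e.toLinearMap, fun _ => ⟨?_, ?_⟩⟩
      · intro h0
        have h3 : ((e x : N') : M) = 0 := by
          have := congrArg (fun f : N →ₗ[R] M => f x) h0
          simpa using this
        have h4 : e x = 0 := Subtype.ext h3
        exact hx (by simpa using h4)
      · rw [LinearMap.range_comp, LinearEquiv.range, Submodule.map_top, Submodule.range_subtype]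
    · exact ⟨0, fun h' => absurd h' h⟩
  choose ι hι using hemb
  have hneg : ∀ N' ∈ T, ι N' ≠ - ι N' := by
    intro N' h h1
    apply (hι N' h).1
    ext y
    apply h2
    have := congrArg (fun f : N →ₗ[R] M => f y) h1
    simp only [LinearMap.neg_apply] at this
    nth_rewrite 1 [this]
    simp
  have hrneg : ∀ f : N →ₗ[R] M, LinearMap.range (-f) = LinearMap.range f := fun f =>
    LinearMap.range_neg f
  let A : Finset (N →ₗ[R] M) := T.image ι
  let B : Finset (N →ₗ[R] M) := T.image (fun N' => - ι N')
  have hinj : Set.InjOn ι T := by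
    intro a ha b hb h
    rw [← (hι a ha).2, h, (hι b hb).2]
  have hinj' : Set.InjOn (fun N' => - ι N') T := by
    intro a ha b hb h
    exact hinj ha hb (neg_injective h)
  have hA : A.card = T.card := Finset.card_image_of_injOn hinj
  have hB : B.card = T.card := Finset.card_image_of_injOn hinj'
  have hAB : Disjoint A B := by
    rw [Finset.disjoint_left]
    intro f hf hf'
    obtain ⟨a, ha, rfl⟩ := Finset.mem_image.1 hf
    obtain ⟨b, hb, h⟩ := Finset.mem_image.1 hf'
    have : a = b := by
      rw [← (hι a ha).2, ← h, hrneg, (hι b hb).2]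
    subst this
    exact hneg a ha h.symm
  have h0 : (0 : N →ₗ[R] M) ∉ A ∪ B := by
    intro h
    rcases Finset.mem_union.1 h with h | h
    · obtain ⟨a, ha, h⟩ := Finset.mem_image.1 h
      exact (hι a ha).1 h
    · obtain ⟨a, ha, h⟩ := Finset.mem_image.1 h
      exact (hι a ha).1 (neg_eq_zero.1 h)
  have h6 := Finset.card_le_univ (insert (0 : N →ₗ[R] M) (A ∪ B))
  rw [Finset.card_insert_of_notMem h0, Finset.card_union_of_disjoint hAB, hA, hB] at h6
  rw [Nat.card_eq_fintype_card]
  omega

end types

section infoset

variable {F S : Type} [Field F] [Fintype S]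

/-- information set of a space of functions -/
theorem exists_info (N : Submodule F (S → F)) : ∃ I : Finset S,
    I.card = Module.finrank F N ∧ ∀ f ∈ N, ∀ f' ∈ N, (∀ s ∈ I, f s = f' s) → f = f' := by
  classical
  let v : S → Module.Dual F N := fun s => (LinearMap.proj s).comp N.subtype
  obtain ⟨b, hb, hspan, hli⟩ := exists_linearIndependent F (Set.range v)
  have hbfin : b.Finite := (Set.finite_range v).subset hb
  have htop : Submodule.span F (Set.range v) = ⊤ := by
    have h0 : (Submodule.span F (Set.range v)).dualCoannihilator = ⊥ := by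
      rw [eq_bot_iff]
      intro f hf
      rw [Submodule.mem_dualCoannihilator] at hf
      rw [Submodule.mem_bot]
      apply Subtype.ext
      funext s
      exact hf (v s) (Submodule.subset_span ⟨s, rfl⟩)
    have h1 := Subspace.dualCoannihilator_dualAnnihilator_eq
      (W := Submodule.span F (Set.range v))
    rw [h0, Submodule.dualAnnihilator_bot] at h1
    exact h1.symm
  have hsel : ∀ t : b, ∃ s : S, v s = t.1 := fun t => hb t.2
  choose σ hσ using hsel
  have hσinj : Function.Injective σ := by
    intro t t' h
    apply Subtype.ext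
    rw [← hσ t, h, hσ t']
  let _ : Fintype b := hbfin.fintype
  refine ⟨Finset.univ.image σ, ?_, ?_⟩
  · rw [Finset.card_image_of_injective _ hσinj, Finset.card_univ]
    have h1 := finrank_span_eq_card hli
    have h2 : Set.range (Subtype.val : b → Module.Dual F N) = b := Subtype.range_val
    rw [h2, hspan, htop, finrank_top, Subspace.dual_finrank_eq] at h1
    exact h1.symm
  · intro f hf f' hf' h
    have h3 : ∀ φ ∈ Submodule.span F b, φ ⟨f, hf⟩ = φ ⟨f', hf'⟩ := by
      intro φ hφ
      induction hφ using Submodule.span_induction with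
      | mem x hx =>
        have := h (σ ⟨x, hx⟩) (Finset.mem_image_of_mem _ (Finset.mem_univ _))
        have e := hσ ⟨x, hx⟩
        simp only at e
        rw [← e]
        exact this
      | zero => simp
      | add x y _ _ hx hy => rw [LinearMap.add_apply, LinearMap.add_apply, hx, hy]
      | smul a x _ hx => rw [LinearMap.smul_apply, LinearMap.smul_apply, hx]
    funext s
    have h4 : v s ∈ Submodule.span F b := by rw [hspan]; exact Submodule.subset_span ⟨s, rfl⟩
    exact h3 _ h4

end infoset

end Pool.Agent.CMN
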